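import Pool.Agent.MP_67227b_nt.Ppw.PpwDefs
import Pool.Agent.MP_67227b_nt.Family
import Pool.Agent.MP_67227b_nt.Sg.SgZ_a
import Pool.Agent.MP_67227b_nt.Zeta

set_option autoImplicit false

open Filter Topology Set MeasureTheory Complex
open scoped Real ArithmeticFunction ContDiff

namespace Pool.Agent.MP_67227b_nt.Pp

open Pool.Agent.Lib.ZetaCount_helper33 Pool.Agent.MP_67227b_nt Pool.Agent.MP_67227b_nt.Mo
open Pool.Agent.MP_67227b_nt.Sg
open Pool.Agent.MP_67227b_nt.Mo.MomentBAux (DP)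

/-- MODULE W4. `pairs_of_meas` (Pp/PpCov) for windows inside `[T - H₀, T]`, now with the pairs
`windowPairs T H₀ lam` (same `lam`: the normalisation is exactly `log T`). -/
theorem pairs_of_meas_w {lam R c : ℝ} (hl : 0 < lam) (hR : 0 < R) (hc : 0 < c) :
    ∃ c' : ℝ, 0 < c' ∧ ∀ᶠ T : ℝ in atTop, ∀ H₀ A H : ℝ, T / 2 ≤ A → 0 ≤ H → T - H₀ + 1 ≤ A →
      A + H ≤ T - 1 →
      c * H ≤ volume.real {t ∈ Icc A (A + H) |
        ¬ Sg.Sep (Icc (t - R / Real.log T) (t + R / Real.log T)) (2 * π * lam / Real.log T)} →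
      c' * H * Real.log T ≤ ((windowPairs T H₀ lam).ncard : ℝ) := by
  classical
  refine ⟨c / (2 * R), by positivity, ?_⟩
  have e1 : ∀ᶠ T : ℝ in atTop, R + 1 ≤ Real.log T :=
    Real.tendsto_log_atTop.eventually_ge_atTop _
  filter_upwards [e1, eventually_gt_atTop 4] with T hT1 hT2 H₀ A H hA hH hH₀ hAH hmeas
  have hπ := Real.pi_pos
  have hT0 : 0 < T := by linarith
  have hL : 0 < Real.log T := by linarith
  have hRL : R / Real.log T ≤ 1 := by
    rw [div_le_one hL]
    linarith
  have hRL0 : 0 < R / Real.log T := by positivity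
  set L := Real.log T with hLdef
  set P := windowPairs T H₀ lam with hP
  have hPfin : P.Finite := by
    refine ((goodFamily_zeta.fin T).prod (goodFamily_zeta.fin T)).subset ?_
    rintro p ⟨-, h1, h2, -⟩
    exact ⟨h1.2, h2.2⟩
  have hsub : {t ∈ Icc A (A + H) | ¬ Sg.Sep (Icc (t - R / L) (t + R / L))
      (2 * π * lam / L)} ⊆ ⋃ j ∈ hPfin.toFinset,
        Icc (zetaOrdinate j.1 - R / L) (zetaOrdinate j.1 + R / L) := by
    rintro t ⟨⟨ht1, ht2⟩, hns⟩
    obtain ⟨j, j', hne, hj, hj', h0, h1⟩ := exists_pair_of_not_sep (by linarith)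
      (by positivity) hns
    have hmem : (j', j) ∈ P := by
      refine ⟨Ne.symm hne, ⟨by linarith [hj'.1], by linarith [hj'.2]⟩,
        ⟨by linarith [hj.1], by linarith [hj.2]⟩, mul_nonneg h0 (by positivity), ?_⟩
      have h2 : (zetaOrdinate j' - zetaOrdinate j) * (L / (2 * π)) ≤
          (2 * π * lam / L) * (L / (2 * π)) := by gcongr
      refine h2.trans (le_of_eq ?_)
      field_simp
    refine mem_iUnion₂.2 ⟨(j', j), (Set.Finite.mem_toFinset hPfin).2 hmem, ?_⟩
    exact ⟨by linarith [hj'.2], by linarith [hj'.1]⟩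
  have hvol : volume.real {t ∈ Icc A (A + H) | ¬ Sg.Sep (Icc (t - R / L) (t + R / L))
      (2 * π * lam / L)} ≤ P.ncard * (2 * (R / L)) := by
    refine (measureReal_mono hsub ?_).trans ?_
    · exact ((measure_biUnion_finset_le _ _).trans_lt (ENNReal.sum_lt_top.2 fun j _ => by
        rw [Real.volume_Icc]; exact ENNReal.ofReal_lt_top)).ne
    · refine (measureReal_biUnion_finset_le _ _).trans ?_
      have : ∀ j ∈ hPfin.toFinset, volume.real
          (Icc (zetaOrdinate j.1 - R / L) (zetaOrdinate j.1 + R / L)) = 2 * (R / L) := by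
        intro j _
        rw [Real.volume_real_Icc_of_le (by linarith)]
        ring
      rw [Finset.sum_congr rfl this, Finset.sum_const, nsmul_eq_mul,
        ← Set.ncard_eq_toFinset_card P hPfin]
  have h5 : c * H ≤ P.ncard * (2 * (R / L)) := hmeas.trans hvol
  have h6 : c / (2 * R) * H * L = (c * H) * (L / (2 * R)) := by ring
  rw [h6]
  calc (c * H) * (L / (2 * R)) ≤ (P.ncard * (2 * (R / L))) * (L / (2 * R)) := by gcongr
    _ = P.ncard := by field_simp

end Pool.Agent.MP_67227b_nt.Pp
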