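import Pool.Agent.MP_67227b_nt.Defs
import Pool.Agent.MP_67227b_nt.Pp.PpDefs
import Pool.Agent.MP_67227b_nt.Sg.SgDefs

set_option autoImplicit false

open Filter Topology Set MeasureTheory Complex
open scoped Real ArithmeticFunction ContDiff

namespace Pool.Agent.MP_67227b_nt.Pp

open Pool.Agent.Lib.ZetaCount_helper33 Pool.Agent.MP_67227b_nt Pool.Agent.MP_67227b_nt.Mo
open Pool.Agent.MP_67227b_nt.Sg
open Pool.Agent.MP_67227b_nt.Mo.MomentBAux (DP)

/-- The ordered pairs of distinct indices of zeros with ordinates in `[T - H, T]` and normalised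
difference in `[0, lam]`. -/
def windowPairs (T H lam : ℝ) : Set (ZetaZeroIdx × ZetaZeroIdx) :=
  {p | p.1 ≠ p.2 ∧ zetaOrdinate p.1 ∈ Icc (T - H) T ∧ zetaOrdinate p.2 ∈ Icc (T - H) T ∧
    (zetaOrdinate p.1 - zetaOrdinate p.2) * (Real.log T / (2 * π)) ∈ Icc 0 lam}

end Pool.Agent.MP_67227b_nt.Pp
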