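import Pool.Agent.MP_67227b_nt.Ppw.PpwLevel

set_option autoImplicit false

open Filter Topology Set MeasureTheory Complex
open scoped Real ArithmeticFunction ContDiff

namespace Pool.Agent.MP_67227b_nt.Pp

open Pool.Agent.Lib.ZetaCount_helper33 Pool.Agent.MP_67227b_nt Pool.Agent.MP_67227b_nt.Mo
open Pool.Agent.MP_67227b_nt.Sg
open Pool.Agent.MP_67227b_nt.Mo.MomentBAux (DP)

/-- MODULE W2. `exp_int` (Pp/PpExp) for windows: same proof with `level_meas_w`. -/
theorem exp_int_w {f : ℝ → ℝ → ℝ} (hf : LD f)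
    (hc : ∀ᶠ T : ℝ in atTop, ContinuousOn (f T) (Icc (T / 2) (3 * T)))
    (hb : ∃ C : ℝ, ∀ᶠ T : ℝ in atTop, ∀ t ∈ Icc (T / 2) (3 * T), f T t ≤ C * Real.log T)
    {lam : ℝ} (hlam : 0 < lam) {θ : ℝ} (hθ : 0 < θ) (hθ1 : θ ≤ 1) :
    ∃ K : ℝ, 0 < K ∧ ∀ᶠ T : ℝ in atTop, ∀ A H : ℝ, T / 2 ≤ A → T ^ θ ≤ H → A + H ≤ 3 * T →
      ∫ t in A..(A + H), Real.exp (lam * f T t) ≤ K * H := by
  obtain ⟨C, κ₀, hC, hκ, hlev⟩ := level_meas_w hf hθ hθ1
  obtain ⟨C₂', hb'⟩ := hb
  set C₂ : ℝ := |C₂'| + 1 with hC₂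
  have hC₂0 : 0 < C₂ := by positivity
  have hκ0 : 0 < κ₀ := by linarith
  set A₀ : ℝ := 32 * κ₀ * (lam * C₂) with hA₀
  have hA₀0 : 0 < A₀ := by positivity
  -- the lower level
  set B0 : ℝ := 8 * κ₀ * (6 * C * lam + 1) with hB0
  obtain ⟨k₂, hk₂⟩ := exists_nat_ge (max (8 * κ₀) (κ₀ * Real.exp B0))
  have hk₂a : 8 * κ₀ ≤ k₂ := (le_max_left _ _).trans hk₂
  have hk₂b : κ₀ * Real.exp B0 ≤ k₂ := (le_max_right _ _).trans hk₂
  have hg : ∀ j : ℕ, k₂ ≤ j → Real.exp (lam * (3 * C * ((j : ℝ) + 1))) * E2_g κ₀ j ≤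
      (1 / 2) ^ j := by
    intro j hj
    have hj' : (k₂ : ℝ) ≤ j := by exact_mod_cast hj
    have hj8 : 8 * κ₀ ≤ j := hk₂a.trans hj'
    have hj0 : (0 : ℝ) < j := by linarith
    have hj1 : (1 : ℝ) ≤ j := by linarith
    have h1 : Real.exp (lam * (3 * C * ((j : ℝ) + 1)) + j * Real.log 2) * E2_g κ₀ j ≤ 1 := by
      apply E2_log hκ hj8
      · have := Real.log_nonneg (one_le_two (α := ℝ))
        positivity
      · have h2 : B0 ≤ Real.log (2 * j / κ₀) := by
          rw [Real.le_log_iff_exp_le (by positivity), le_div_iff₀ hκ0]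
          linarith
        have h3 : (j : ℝ) / (8 * κ₀) * B0 = j * (6 * C * lam + 1) := by
          rw [hB0]
          field_simp
        have h4 : (j : ℝ) / (8 * κ₀) * B0 ≤ j / (8 * κ₀) * Real.log (2 * j / κ₀) := by gcongr
        have h5 : Real.log 2 ≤ 1 := by
          have := Real.log_two_lt_d9
          linarith
        have h6 : lam * (3 * C * ((j : ℝ) + 1)) ≤ lam * (3 * C * (j + j)) := by gcongr
        have h7 : (j : ℝ) * Real.log 2 ≤ j * 1 := by gcongr
        rw [h3] at h4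
        linarith
    have h8 : Real.exp ((j : ℝ) * Real.log 2) = 2 ^ j := by
      rw [Real.exp_nat_mul, Real.exp_log two_pos]
    rw [Real.exp_add, h8] at h1
    rw [one_div, inv_pow, ← one_div, le_div_iff₀ (by positivity)]
    calc Real.exp (lam * (3 * C * ((j : ℝ) + 1))) * E2_g κ₀ j * 2 ^ j =
        Real.exp (lam * (3 * C * ((j : ℝ) + 1))) * 2 ^ j * E2_g κ₀ j := by ring
      _ ≤ 1 := h1
  refine ⟨Real.exp (lam * (3 * C * k₂)) + 24, by positivity, ?_⟩
  have hll := (Real.tendsto_log_atTop.comp Real.tendsto_log_atTop).eventually_ge_atTop 1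
  -- growth conditions
  have ht1 : Tendsto (fun L : ℝ => L / Real.log L) atTop atTop := by
    have h0 : Tendsto (fun L : ℝ => Real.log L / L) atTop (𝓝 0) := by
      simpa using Real.tendsto_pow_log_div_mul_add_atTop 1 0 1 one_ne_zero
    have h1 : Tendsto (fun L : ℝ => Real.log L / L) atTop (𝓝[>] 0) := by
      refine tendsto_nhdsWithin_iff.2 ⟨h0, ?_⟩
      filter_upwards [eventually_gt_atTop (1 : ℝ)] with L hL
      exact div_pos (Real.log_pos hL) (by linarith)
    have h2 := h1.inv_tendsto_nhdsGT_zero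
    refine h2.congr fun L => ?_
    rw [Pi.inv_apply, inv_div]
  have hgr1 : ∀ᶠ T : ℝ in atTop, (k₂ : ℝ) + 2 ≤ A₀ * (Real.log T / Real.log (Real.log T)) := by
    have h1 := (ht1.comp Real.tendsto_log_atTop).const_mul_atTop hA₀0
    exact h1.eventually_ge_atTop _
  have hgr2 : ∀ᶠ T : ℝ in atTop, κ₀ * Real.sqrt (Real.log T) ≤
      A₀ * (Real.log T / Real.log (Real.log T)) := by
    have h1 : ∀ᶠ L : ℝ in atTop, κ₀ * Real.sqrt L ≤ A₀ * (L / Real.log L) := by
      have h2 := (isLittleO_log_rpow_atTop (r := 1 / 2) (by norm_num)).bound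
        (c := A₀ / κ₀) (by positivity)
      filter_upwards [h2, eventually_gt_atTop (Real.exp 1)] with L hL1 hL2
      have hL0 : 0 < L := lt_trans (Real.exp_pos 1) hL2
      have hlL : 1 < Real.log L := by
        rw [Real.lt_log_iff_exp_lt hL0]
        exact hL2
      rw [Real.norm_of_nonneg (by linarith), Real.norm_of_nonneg (by positivity),
        ← Real.sqrt_eq_rpow] at hL1
      rw [mul_div_assoc', le_div_iff₀ (by linarith)]
      have hs := Real.mul_self_sqrt hL0.le
      have hs0 : 0 < Real.sqrt L := Real.sqrt_pos.2 hL0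
      calc κ₀ * Real.sqrt L * Real.log L ≤ κ₀ * Real.sqrt L * (A₀ / κ₀ * Real.sqrt L) := by gcongr
        _ = A₀ * (Real.sqrt L * Real.sqrt L) := by field_simp
        _ = A₀ * L := by rw [hs]
    exact Real.tendsto_log_atTop.eventually h1
  filter_upwards [hc, hb', hlev A₀ hA₀0, hll, hgr1, hgr2, eventually_gt_atTop (Real.exp 1)] with
    T hcT₀ hbT₀ hlT₀ hllT hg1 hg2 hT A H hTA hTH hAH
  have hsubI : Icc A (A + H) ⊆ Icc (T / 2) (3 * T) := Icc_subset_Icc hTA hAH
  have hcT := hcT₀.mono hsubI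
  have hbT : ∀ t ∈ Icc A (A + H), f T t ≤ C₂' * Real.log T := fun t ht => hbT₀ t (hsubI ht)
  have hlT := hlT₀ A H hTA hTH hAH
  have hH0 : 0 < H := lt_of_lt_of_le (Real.rpow_pos_of_pos (lt_trans (Real.exp_pos 1) hT) _) hTH
  have hT0 : 0 < T := lt_trans (Real.exp_pos 1) hT
  have hL1 : 1 < Real.log T := by
    rw [Real.lt_log_iff_exp_lt hT0]
    exact hT
  set L := Real.log T with hLdef
  have hll1 : 1 ≤ Real.log L := hllT
  have hL0 : 0 < L := by linarith
  set X : ℝ := A₀ * (L / Real.log L) with hX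
  set k₁ : ℕ := ⌊X⌋₊ with hk₁
  have hX0 : 0 < X := by
    have : (0 : ℝ) ≤ k₂ := Nat.cast_nonneg _
    linarith
  have hk₁X : (k₁ : ℝ) ≤ X := Nat.floor_le hX0.le
  have hk₁' : X < k₁ + 1 := Nat.lt_floor_add_one _
  have hk₂' : 1 ≤ (k₂ : ℝ) := by linarith
  have hk₁X2 : X / 2 ≤ k₁ := by linarith
  have hk21 : k₂ ≤ k₁ := by
    have : (k₂ : ℝ) < k₁ + 1 := by linarith
    have : k₂ < k₁ + 1 := by exact_mod_cast this
    omega
  have hk21' : (k₂ : ℝ) ≤ k₁ := by exact_mod_cast hk21
  -- measure of the levels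
  have hm : ∀ j : ℕ, k₂ ≤ j → j ≤ k₁ →
      volume.real {t ∈ Icc A (A + H) | 3 * C * (j : ℝ) < f T t} ≤ 8 * H * E2_g κ₀ j := by
    intro j hj1 hj2
    have hj1' : (k₂ : ℝ) ≤ j := by exact_mod_cast hj1
    have hj2' : (j : ℝ) ≤ k₁ := by exact_mod_cast hj2
    apply hlT j (hk₂a.trans hj1')
    rw [mul_div_assoc]
    exact hj2'.trans hk₁X
  have htop : Real.exp (lam * (C₂ * L)) * E2_g κ₀ k₁ ≤ 1 := by
    apply E2_log hκ (hk₂a.trans hk21') (by positivity)
    have h1 : Real.log L / 2 ≤ Real.log (2 * k₁ / κ₀) := by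
      have h2 : Real.log L / 2 = Real.log (Real.sqrt L) := by rw [Real.log_sqrt hL0.le]
      rw [h2]
      apply Real.log_le_log (Real.sqrt_pos.2 hL0)
      rw [le_div_iff₀ hκ0]
      linarith
    have h3 : A₀ * L / (16 * κ₀ * Real.log L) ≤ k₁ / (8 * κ₀) := by
      rw [div_le_div_iff₀ (by positivity) (by positivity)]
      have h4 : X * Real.log L = A₀ * L := by
        rw [hX]
        field_simp
      have h5 : X / 2 * Real.log L ≤ k₁ * Real.log L := by gcongr
      have h6 : A₀ * L ≤ 2 * (k₁ * Real.log L) := by linarith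
      have h7 : A₀ * L * (8 * κ₀) ≤ 2 * (k₁ * Real.log L) * (8 * κ₀) := by gcongr
      linarith
    calc lam * (C₂ * L) = A₀ * L / (16 * κ₀ * Real.log L) * (Real.log L / 2) := by
          rw [hA₀]
          field_simp
          ring
      _ ≤ k₁ / (8 * κ₀) * Real.log (2 * k₁ / κ₀) := by gcongr
  have hfle : ∀ t ∈ Icc A (A + H), lam * f T t ≤ lam * (C₂ * L) := by
    intro t ht
    have h1 := hbT t ht
    have h2 : C₂' * L ≤ C₂ * L := by
      gcongr
      rw [hC₂]
      have := le_abs_self C₂'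
      linarith
    gcongr
    linarith
  have hTT : A ≤ A + H := by linarith
  -- the majorant
  set E : ℕ → Set ℝ := fun j => {t ∈ Icc A (A + H) | 3 * C * (j : ℝ) < f T t} with hE
  have hEm : ∀ j, MeasurableSet (E j) := fun j => E2_meas hcT _
  let G : ℝ → ℝ := fun t => Real.exp (lam * (3 * C * k₂)) +
      (∑ j ∈ Finset.Ico k₂ k₁, (E j).indicator
        (fun _ => Real.exp (lam * (3 * C * (j + 1)))) t) +
      (E k₁).indicator (fun _ => Real.exp (lam * (C₂ * L))) t
  have hle : ∀ t ∈ Icc A (A + H), Real.exp (lam * f T t) ≤ G t := by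
    intro t ht
    have h1 := E2_pt (x := f T t) (M := lam * (C₂ * L)) hC hlam hk21 (hfle t ht)
    refine h1.trans (le_of_eq ?_)
    have h2 : ∀ (j : ℕ) (c : ℝ), (if 3 * C * (j : ℝ) < f T t then c else 0) =
        (E j).indicator (fun _ => c) t := by
      intro j c
      by_cases h3 : 3 * C * (j : ℝ) < f T t
      · rw [if_pos h3, indicator_of_mem (show t ∈ E j from ⟨ht, h3⟩)]
      · rw [if_neg h3, indicator_of_notMem (fun h4 : t ∈ E j => h3 h4.2)]
    simp only [G]
    rw [h2 k₁]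
    congr 2
    exact Finset.sum_congr rfl fun j _ => h2 j _
  have hindint : ∀ (j : ℕ) (c : ℝ), IntegrableOn ((E j).indicator fun _ => c)
      (Ioc A (A + H)) := by
    intro j c
    apply Integrable.indicator _ (hEm j)
    exact integrableOn_const (by simp) (by simp)
  have hindle : ∀ (j : ℕ) (c : ℝ), k₂ ≤ j → j ≤ k₁ → 0 ≤ c →
      ∫ t in Ioc A (A + H), (E j).indicator (fun _ => c) t ≤ c * (8 * H * E2_g κ₀ j) := by
    intro j c hj1 hj2 hc0
    rw [integral_indicator_const c (hEm j), smul_eq_mul, mul_comm]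
    refine mul_le_mul_of_nonneg_left ?_ hc0
    rw [measureReal_restrict_apply (hEm j)]
    refine le_trans (measureReal_mono inter_subset_left ?_) (hm j hj1 hj2)
    refine ne_of_lt (lt_of_le_of_lt (measure_mono (t := Icc A (A + H)) ?_)
      isCompact_Icc.measure_lt_top)
    exact fun t ht => ht.1
  have hGint : IntegrableOn G (Ioc A (A + H)) := by
    apply Integrable.add
    · apply Integrable.add
      · exact integrableOn_const (by simp) (by simp)
      · exact integrable_finsetSum _ fun j _ => hindint j _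
    · exact hindint k₁ _
  have hexpint : IntegrableOn (fun t => Real.exp (lam * f T t)) (Ioc A (A + H)) := by
    have h1 : ContinuousOn (fun t => Real.exp (lam * f T t)) (Icc A (A + H)) :=
      Real.continuous_exp.comp_continuousOn (continuousOn_const.mul hcT)
    exact (h1.integrableOn_compact isCompact_Icc).mono_set Ioc_subset_Icc_self
  rw [intervalIntegral.integral_of_le hTT]
  have hmono : ∫ t in Ioc A (A + H), Real.exp (lam * f T t) ≤
      ∫ t in Ioc A (A + H), G t := by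
    apply setIntegral_mono_on hexpint hGint measurableSet_Ioc
    intro t ht
    exact hle t (Ioc_subset_Icc_self ht)
  refine hmono.trans ?_
  have hsplit : ∫ t in Ioc A (A + H), G t =
      (∫ t in Ioc A (A + H), Real.exp (lam * (3 * C * k₂))) +
      (∑ j ∈ Finset.Ico k₂ k₁, ∫ t in Ioc A (A + H), (E j).indicator
        (fun _ => Real.exp (lam * (3 * C * (j + 1)))) t) +
      ∫ t in Ioc A (A + H), (E k₁).indicator (fun _ => Real.exp (lam * (C₂ * L))) t := by
    simp only [G]
    rw [integral_add, integral_add, integral_finsetSum]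
    · exact fun j _ => hindint j _
    · exact integrableOn_const (by simp) (by simp)
    · exact integrable_finsetSum _ fun j _ => hindint j _
    · apply Integrable.add
      · exact integrableOn_const (by simp) (by simp)
      · exact integrable_finsetSum _ fun j _ => hindint j _
    · exact hindint k₁ _
  rw [hsplit]
  have hI1 : ∫ t in Ioc A (A + H), Real.exp (lam * (3 * C * k₂)) ≤
      Real.exp (lam * (3 * C * k₂)) * H := by
    rw [setIntegral_const, smul_eq_mul, Real.volume_real_Ioc_of_le hTT]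
    have := Real.exp_pos (lam * (3 * C * k₂))
    nlinarith
  have hI2 : ∑ j ∈ Finset.Ico k₂ k₁, ∫ t in Ioc A (A + H), (E j).indicator
        (fun _ => Real.exp (lam * (3 * C * ((j : ℝ) + 1)))) t ≤ 16 * H := by
    have h1 : ∀ j ∈ Finset.Ico k₂ k₁, ∫ t in Ioc A (A + H), (E j).indicator
        (fun _ => Real.exp (lam * (3 * C * ((j : ℝ) + 1)))) t ≤ 8 * H * (1 / 2) ^ j := by
      intro j hj
      rw [Finset.mem_Ico] at hj
      refine (hindle j _ hj.1 hj.2.le (Real.exp_pos _).le).trans ?_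
      have h2 := hg j hj.1
      have h3 : 0 ≤ 8 * H := by positivity
      calc Real.exp (lam * (3 * C * ((j : ℝ) + 1))) * (8 * H * E2_g κ₀ j)
          = 8 * H * (Real.exp (lam * (3 * C * ((j : ℝ) + 1))) * E2_g κ₀ j) := by ring
        _ ≤ 8 * H * (1 / 2) ^ j := mul_le_mul_of_nonneg_left h2 h3
    refine (Finset.sum_le_sum h1).trans ?_
    rw [← Finset.mul_sum]
    have h4 : ∑ j ∈ Finset.Ico k₂ k₁, ((1 : ℝ) / 2) ^ j ≤ 2 := by
      refine le_trans (Finset.sum_le_sum_of_subset_of_nonneg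
        (t := Finset.range k₁) ?_ (fun _ _ _ => by positivity)) ?_
      · intro j hj
        rw [Finset.mem_Ico] at hj
        exact Finset.mem_range.2 hj.2
      · exact sum_geometric_two_le k₁
    nlinarith
  have hI3 : ∫ t in Ioc A (A + H), (E k₁).indicator
      (fun _ => Real.exp (lam * (C₂ * L))) t ≤ 8 * H := by
    refine (hindle k₁ _ hk21 le_rfl (Real.exp_pos _).le).trans ?_
    have h3 : 0 ≤ 8 * H := by positivity
    calc Real.exp (lam * (C₂ * L)) * (8 * H * E2_g κ₀ k₁)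
        = 8 * H * (Real.exp (lam * (C₂ * L)) * E2_g κ₀ k₁) := by ring
      _ ≤ 8 * H * 1 := mul_le_mul_of_nonneg_left htop h3
      _ = 8 * H := by ring
  linarith

end Pool.Agent.MP_67227b_nt.Pp
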