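import Pool.Agent.MP_67227b_nt.Pp.PpFinal
import Pool.Agent.MP_67227b_nt.Ppw.PpwDefs

set_option autoImplicit false

open Filter Topology Set MeasureTheory Complex
open scoped Real ArithmeticFunction ContDiff

namespace Pool.Agent.MP_67227b_nt.Pp

open Pool.Agent.Lib.ZetaCount_helper33 Pool.Agent.MP_67227b_nt Pool.Agent.MP_67227b_nt.Mo
open Pool.Agent.MP_67227b_nt.Sg
open Pool.Agent.MP_67227b_nt.Mo.MomentBAux (DP)

private lemma farw_countable (hRH : RiemannHypothesis) : Countable Zer := by
  have h : (Set.univ : Set Zer) = ⋃ n : ℕ, ((ZZ (n : ℝ) : Finset Zer) : Set Zer) := by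
    symm
    rw [Set.eq_univ_iff_forall]
    intro u
    obtain ⟨n, hn⟩ := exists_nat_ge |ord u|
    refine Set.mem_iUnion.mpr ⟨n, ?_⟩
    rw [Finset.mem_coe, mem_ZZ hRH (Nat.cast_nonneg n)]
    exact hn
  rw [← Set.countable_univ_iff, h]
  exact Set.countable_iUnion fun n => (Finset.countable_toSet _)

/-- the term of `Far` -/
private noncomputable def farw_f (L R : ℝ) (z : Zer) (t : ℝ) : ℝ := by
  classical
  exact if R / L < |t - ord z| then mu z / (L * (t - ord z)) ^ 2 else 0

private lemma farw_eq (L R t : ℝ) : Far L R t = ∑' z : Zer, farw_f L R z t := rfl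

private lemma farw_f_nonneg (L R : ℝ) (z : Zer) (t : ℝ) : 0 ≤ farw_f L R z t := by
  unfold farw_f
  split_ifs
  · exact div_nonneg (mu_nonneg z) (sq_nonneg _)
  · exact le_rfl

private lemma farw_f_meas (L R : ℝ) (z : Zer) : Measurable (farw_f L R z) := by
  unfold farw_f
  refine Measurable.ite ?_ ?_ measurable_const
  · exact measurableSet_lt measurable_const (measurable_id.sub_const _).abs
  · exact measurable_const.div (((measurable_id.sub_const _).const_mul L).pow_const 2)

/-- the Cauchy bound -/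
private lemma farw_f_le {L R : ℝ} (hL : 0 < L) (hR : 0 < R) (z : Zer) (t : ℝ) :
    farw_f L R z t ≤ 2 * mu z / R ^ 2 * (1 + ((t - ord z) / (R / L)) ^ 2)⁻¹ := by
  unfold farw_f
  have hr : 0 < R / L := div_pos hR hL
  have hmu := mu_nonneg z
  split_ifs with h
  · set y := t - ord z with hy
    have hy0 : y ≠ 0 := by
      intro h0
      rw [h0, abs_zero] at h
      linarith
    have h1 : (R / L) ^ 2 ≤ y ^ 2 := by
      rw [← sq_abs y]
      exact pow_le_pow_left₀ hr.le h.le 2
    have hy2 : 0 < y ^ 2 := by positivity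
    have h3 : (1 + (y / (R / L)) ^ 2)⁻¹ = (R / L) ^ 2 / ((R / L) ^ 2 + y ^ 2) := by
      rw [div_pow]
      field_simp
    rw [h3]
    have h4 : mu z / (L * y) ^ 2 ≤ mu z * (2 / (L ^ 2 * ((R / L) ^ 2 + y ^ 2))) := by
      rw [div_eq_mul_one_div]
      refine mul_le_mul_of_nonneg_left ?_ hmu
      rw [div_le_div_iff₀ (by positivity) (by positivity), mul_pow]
      nlinarith [mul_le_mul_of_nonneg_left h1 (sq_nonneg L)]
    refine h4.trans (le_of_eq ?_)
    field_simp
  · positivity

private lemma farw_f_le' {L R : ℝ} (z : Zer) (t : ℝ) :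
    farw_f L R z t ≤ mu z / (L * (t - ord z)) ^ 2 := by
  unfold farw_f
  split_ifs
  · exact le_rfl
  · exact div_nonneg (mu_nonneg z) (sq_nonneg _)

private lemma farw_cauchy_int {r : ℝ} (hr : 0 < r) (a : ℝ) :
    Integrable (fun t : ℝ => (1 + ((t - a) / r) ^ 2)⁻¹) ∧
      ∫ t : ℝ, (1 + ((t - a) / r) ^ 2)⁻¹ = π * r := by
  have h1 : Integrable (fun t : ℝ => (1 + (t / r) ^ 2)⁻¹) :=
    integrable_inv_one_add_sq.comp_div hr.ne'
  refine ⟨h1.comp_sub_right a, ?_⟩
  rw [integral_sub_right_eq_self (fun t : ℝ => (1 + (t / r) ^ 2)⁻¹) a,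
    Measure.integral_comp_div (fun t : ℝ => (1 + t ^ 2)⁻¹) r, integral_univ_inv_one_add_sq,
    abs_of_pos hr, smul_eq_mul, mul_comm]

private lemma farw_f_int {L R : ℝ} (hL : 0 < L) (hR : 0 < R) (z : Zer) (s : Set ℝ) :
    IntegrableOn (farw_f L R z) s := by
  have h1 := ((farw_cauchy_int (div_pos hR hL) (ord z)).1.const_mul (2 * mu z / R ^ 2))
  refine (h1.integrableOn (s := s)).mono' (farw_f_meas L R z).aestronglyMeasurable ?_
  refine Eventually.of_forall fun t => ?_
  rw [Real.norm_of_nonneg (farw_f_nonneg L R z t)]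
  exact farw_f_le hL hR z t

private lemma farw_f_integral {L R : ℝ} (hL : 0 < L) (hR : 0 < R) (z : Zer) (s : Set ℝ) :
    ∫ t in s, farw_f L R z t ≤ 2 * π * mu z / (L * R) := by
  have h1 := ((farw_cauchy_int (div_pos hR hL) (ord z)).1.const_mul (2 * mu z / R ^ 2))
  have h2 : ∫ t in s, farw_f L R z t ≤ ∫ t : ℝ, farw_f L R z t := by
    refine setIntegral_le_integral ?_ (Eventually.of_forall (farw_f_nonneg L R z))
    rw [← integrableOn_univ]
    exact farw_f_int hL hR z _
  refine h2.trans ?_
  have h3 : ∫ t : ℝ, farw_f L R z t ≤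
      ∫ t : ℝ, 2 * mu z / R ^ 2 * (1 + ((t - ord z) / (R / L)) ^ 2)⁻¹ := by
    refine integral_mono ?_ h1 (farw_f_le hL hR z)
    rw [← integrableOn_univ]
    exact farw_f_int hL hR z _
  refine h3.trans (le_of_eq ?_)
  rw [integral_const_mul, (farw_cauchy_int (div_pos hR hL) (ord z)).2]
  field_simp

/-- the number of zeros within 1 of the window -/
private lemma farw_near (hRH : RiemannHypothesis) : ∃ C : ℝ, 0 < C ∧ ∀ T A H : ℝ, 8 ≤ T →
    T / 2 ≤ A → 1 ≤ H → A + H ≤ 3 * T →
    ∀ s : Finset Zer, (∀ z ∈ s, A - 1 ≤ ord z ∧ ord z ≤ A + H + 1) →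
      ∑ z ∈ s, mu z ≤ C * (H * Real.log T) := by
  obtain ⟨C, hC, hd⟩ := exists_density hRH
  refine ⟨16 * C, by positivity, fun T A H hT hA hH hAH s hs => ?_⟩
  have hint : ∀ z : Zer, IntervalIntegrable (fun t : ℝ => mu z / (1 + (t - ord z) ^ 2)) volume
      (A - 1) (A + H + 2) := by
    intro z
    apply Continuous.intervalIntegrable
    refine continuous_const.div (by fun_prop) fun t => ?_
    positivity
  have h1 : ∀ z ∈ s, mu z ≤ 2 * ∫ t in (A - 1)..(A + H + 2), mu z / (1 + (t - ord z) ^ 2) := by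
    intro z hz
    have hz1 := hs z hz
    have hsub : ∫ t in (ord z)..(ord z + 1), mu z / (1 + (t - ord z) ^ 2) ≤
        ∫ t in (A - 1)..(A + H + 2), mu z / (1 + (t - ord z) ^ 2) := by
      refine intervalIntegral.integral_mono_interval (by linarith) (by linarith) (by linarith)
        ?_ (hint z)
      exact Eventually.of_forall fun t => term_nonneg t z
    have hlow : mu z / 2 ≤ ∫ t in (ord z)..(ord z + 1), mu z / (1 + (t - ord z) ^ 2) := by
      have hc : ∫ t in (ord z)..(ord z + 1), mu z / 2 = mu z / 2 := by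
        rw [intervalIntegral.integral_const]
        simp
      rw [← hc]
      refine intervalIntegral.integral_mono_on (by linarith) intervalIntegrable_const ?_ ?_
      · apply Continuous.intervalIntegrable
        refine continuous_const.div (by fun_prop) fun t => ?_
        positivity
      · intro t ht
        have ht0 : 0 ≤ t - ord z := by linarith [ht.1]
        have ht1 : t - ord z ≤ 1 := by linarith [ht.2]
        refine div_le_div_of_nonneg_left (mu_nonneg z) (by positivity) ?_
        nlinarith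
    linarith
  have h2 : ∑ z ∈ s, mu z ≤
      2 * ∫ t in (A - 1)..(A + H + 2), ∑ z ∈ s, mu z / (1 + (t - ord z) ^ 2) := by
    rw [intervalIntegral.integral_finsetSum (fun z _ => hint z), Finset.mul_sum]
    exact Finset.sum_le_sum h1
  have hlogT : 0 < Real.log T := Real.log_pos (by linarith)
  have h3 : ∫ t in (A - 1)..(A + H + 2), ∑ z ∈ s, mu z / (1 + (t - ord z) ^ 2) ≤
      ∫ t in (A - 1)..(A + H + 2), C * (2 * Real.log T) := by
    refine intervalIntegral.integral_mono_on (by linarith) ?_ intervalIntegrable_const ?_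
    · apply Continuous.intervalIntegrable
      refine continuous_finsetSum _ fun z _ => continuous_const.div (by fun_prop) fun t => ?_
      positivity
    · intro t ht
      have h4 : ∑ z ∈ s, mu z / (1 + (t - ord z) ^ 2) ≤ C * Real.log (|t| + 3) :=
        ((summable_zer hRH t).sum_le_tsum s (fun z _ => term_nonneg t z)).trans (hd t)
      refine h4.trans (mul_le_mul_of_nonneg_left ?_ hC.le)
      have h5 : |t| ≤ 4 * T := abs_le.mpr ⟨by linarith [ht.1], by linarith [ht.2]⟩
      have h6 : Real.log (|t| + 3) ≤ Real.log (T ^ 2) := by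
        apply Real.log_le_log
        · have := abs_nonneg t
          linarith
        · nlinarith
      rw [Real.log_pow] at h6
      push_cast at h6
      exact h6
  have h7 : ∫ t in (A - 1)..(A + H + 2), C * (2 * Real.log T) =
      (H + 3) * (2 * C * Real.log T) := by
    rw [intervalIntegral.integral_const, smul_eq_mul]
    ring
  rw [h7] at h3
  have h8 : (H + 3) * (2 * C * Real.log T) ≤ (4 * H) * (2 * C * Real.log T) :=
    mul_le_mul_of_nonneg_right (by linarith) (by positivity)
  calc ∑ z ∈ s, mu z ≤ 2 * ((4 * H) * (2 * C * Real.log T)) := h2.trans (by linarith)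
    _ = 16 * C * (H * Real.log T) := by ring

/-- MODULE W3. `Far_mean` (Pp/PpFar) for windows. Split `Far` at `|t - γ| = 1`: the far part is at
most `C log T/L² = C/L` (`Sg.tail_le`, `X = 1`); the near part integrates to at most
`(1/L²) (2L/R) #{zeros within 1 of the window}`, and there are at most `C (H + 1) L` of them. -/
theorem Far_mean_w (hRH : RiemannHypothesis) {θ : ℝ} (hθ : 0 < θ) (hθ1 : θ ≤ 1) :
    ∃ C : ℝ, 0 < C ∧ ∀ R : ℝ, 1 ≤ R →
    ∀ᶠ T : ℝ in atTop, ∀ A H : ℝ, T / 2 ≤ A → T ^ θ ≤ H → A + H ≤ 3 * T →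
      IntegrableOn (Far (Real.log T) R) (Icc A (A + H)) ∧
      ∫ t in A..(A + H), Far (Real.log T) R t ≤ C * H / R := by
  classical
  have hcount := farw_countable hRH
  obtain ⟨C1, hC1, hnear⟩ := farw_near hRH
  obtain ⟨C2, hC2, htail⟩ := Sg.tail_le hRH
  refine ⟨2 * π * C1 + C2, by positivity, fun R hR => ?_⟩
  filter_upwards [eventually_ge_atTop (8 : ℝ), eventually_ge_atTop (Real.exp 1),
    Real.tendsto_log_atTop.eventually_ge_atTop R] with T hT hTe hTR A H hA hTH hAH
  have hH1 : 1 ≤ H := (Real.one_le_rpow (by linarith) hθ.le).trans hTH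
  set L := Real.log T with hLdef
  have hR0 : 0 < R := by linarith
  have hT0 : 0 < T := by linarith
  have hL1 : 1 ≤ L := by
    rw [hLdef, Real.le_log_iff_exp_le hT0]
    exact hTe
  have hL : 0 < L := by linarith
  set S : Set ℝ := Ioc A (A + H) with hS
  -- the finite sums
  have hfin : ∀ s : Finset Zer, ∑ z ∈ s, ∫ t in S, farw_f L R z t ≤
      (2 * π * C1 + C2) * H / R := by
    intro s
    rw [← Finset.sum_filter_add_sum_filter_not s (fun z => A - 1 ≤ ord z ∧ ord z ≤ A + H + 1)]
    have hA' : ∑ z ∈ s.filter (fun z => A - 1 ≤ ord z ∧ ord z ≤ A + H + 1),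
        ∫ t in S, farw_f L R z t ≤ 2 * π * C1 * H / R := by
      have h1 : ∑ z ∈ s.filter (fun z => A - 1 ≤ ord z ∧ ord z ≤ A + H + 1),
          ∫ t in S, farw_f L R z t ≤
          ∑ z ∈ s.filter (fun z => A - 1 ≤ ord z ∧ ord z ≤ A + H + 1),
            2 * π / (L * R) * mu z := by
        refine Finset.sum_le_sum fun z _ => ?_
        refine (farw_f_integral hL hR0 z S).trans (le_of_eq ?_)
        ring
      refine h1.trans ?_
      rw [← Finset.mul_sum]
      have h2 := hnear T A H hT hA hH1 hAH
        (s.filter (fun z => A - 1 ≤ ord z ∧ ord z ≤ A + H + 1))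
        (fun z hz => (Finset.mem_filter.mp hz).2)
      calc 2 * π / (L * R) * ∑ z ∈ s.filter (fun z => A - 1 ≤ ord z ∧ ord z ≤ A + H + 1), mu z
          ≤ 2 * π / (L * R) * (C1 * (H * L)) :=
            mul_le_mul_of_nonneg_left h2 (by positivity)
        _ = 2 * π * C1 * H / R := by field_simp
    have hB : ∑ z ∈ s.filter (fun z => ¬ (A - 1 ≤ ord z ∧ ord z ≤ A + H + 1)),
        ∫ t in S, farw_f L R z t ≤ C2 * H / R := by
      rw [← integral_finsetSum _ fun z _ => farw_f_int hL hR0 z S]
      have h1 : ∫ t in S, ∑ z ∈ s.filter (fun z => ¬ (A - 1 ≤ ord z ∧ ord z ≤ A + H + 1)),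
          farw_f L R z t ≤ ∫ t in S, C2 / L := by
        refine setIntegral_mono_on (integrable_finsetSum _ fun z _ => farw_f_int hL hR0 z S)
          (integrableOn_const (by simp [hS]) (by simp)) measurableSet_Ioc ?_
        intro t ht
        have h2 := htail T t 1 (by linarith) (by linarith [ht.1]) (by linarith [ht.2]) le_rfl
          (by linarith) (s.filter (fun z => ¬ (A - 1 ≤ ord z ∧ ord z ≤ A + H + 1))) (by
            intro z hz
            have h3 := (Finset.mem_filter.mp hz).2
            rw [not_and_or, not_le, not_le] at h3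
            rcases h3 with h3 | h3
            · rw [abs_of_nonneg (by linarith [ht.1])]
              linarith [ht.1]
            · rw [abs_of_nonpos (by linarith [ht.2])]
              linarith [ht.2])
        calc ∑ z ∈ s.filter (fun z => ¬ (A - 1 ≤ ord z ∧ ord z ≤ A + H + 1)), farw_f L R z t
            ≤ ∑ z ∈ s.filter (fun z => ¬ (A - 1 ≤ ord z ∧ ord z ≤ A + H + 1)),
              1 / L ^ 2 * (mu z / (t - ord z) ^ 2) := by
              refine Finset.sum_le_sum fun z _ => (farw_f_le' z t).trans (le_of_eq ?_)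
              rw [mul_pow]
              generalize (t - ord z) ^ 2 = y
              ring
          _ = 1 / L ^ 2 * ∑ z ∈ s.filter (fun z => ¬ (A - 1 ≤ ord z ∧ ord z ≤ A + H + 1)),
              mu z / (t - ord z) ^ 2 := by rw [Finset.mul_sum]
          _ ≤ 1 / L ^ 2 * (C2 * L / 1) := mul_le_mul_of_nonneg_left h2 (by positivity)
          _ = C2 / L := by field_simp
      refine h1.trans ?_
      rw [setIntegral_const, Real.volume_real_Ioc_of_le (by linarith), smul_eq_mul]
      have h4 : C2 / L ≤ C2 / R := div_le_div_of_nonneg_left hC2.le hR0 hTR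
      calc (A + H - A) * (C2 / L) = H * (C2 / L) := by ring
        _ ≤ H * (C2 / R) := mul_le_mul_of_nonneg_left h4 (by linarith)
        _ = C2 * H / R := by ring
    calc _ ≤ 2 * π * C1 * H / R + C2 * H / R := add_le_add hA' hB
      _ = (2 * π * C1 + C2) * H / R := by ring
  have hnn : ∀ z : Zer, 0 ≤ ∫ t in S, farw_f L R z t := fun z =>
    integral_nonneg (farw_f_nonneg L R z)
  have hsum : Summable fun z : Zer => ∫ t in S, farw_f L R z t :=
    summable_of_sum_le hnn hfin
  have hle : ∑' z : Zer, ∫ t in S, farw_f L R z t ≤ (2 * π * C1 + C2) * H / R :=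
    hsum.tsum_le_of_sum_le hfin
  have hint : ∀ z : Zer, Integrable (farw_f L R z) (volume.restrict S) := fun z =>
    farw_f_int hL hR0 z S
  have hnorm : ∀ z : Zer, ∫ t in S, ‖farw_f L R z t‖ = ∫ t in S, farw_f L R z t := by
    intro z
    congr 1
    ext t
    exact Real.norm_of_nonneg (farw_f_nonneg L R z t)
  have hsumn : Summable fun z : Zer => ∫ t in S, ‖farw_f L R z t‖ := by
    simpa only [hnorm] using hsum
  have heq : ∫ t in S, Far L R t = ∑' z : Zer, ∫ t in S, farw_f L R z t := by
    rw [integral_tsum_of_summable_integral_norm hint hsumn]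
    rfl
  -- integrability of the sum
  have hsumt : ∀ t : ℝ, Summable fun z : Zer => farw_f L R z t := by
    intro t
    set K : ℝ := 2 / R ^ 2 * max 1 ((R / L) ^ 2) with hK
    have hr : 0 < R / L := div_pos hR0 hL
    refine Summable.of_nonneg_of_le (fun z => farw_f_nonneg L R z t) (fun z => ?_)
      ((summable_zer hRH t).mul_left K)
    refine (farw_f_le hL hR0 z t).trans ?_
    have hmu := mu_nonneg z
    have h1 : (1 + ((t - ord z) / (R / L)) ^ 2)⁻¹ ≤
        max 1 ((R / L) ^ 2) * (1 / (1 + (t - ord z) ^ 2)) := by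
      have h5 : ((t - ord z) / (R / L)) ^ 2 = (t - ord z) ^ 2 / (R / L) ^ 2 := div_pow _ _ _
      rw [inv_eq_one_div, mul_one_div, div_le_div_iff₀ (by positivity) (by positivity), one_mul,
        h5]
      have h2 : (1 : ℝ) ≤ max 1 ((R / L) ^ 2) := le_max_left _ _
      have h3 : (R / L) ^ 2 ≤ max 1 ((R / L) ^ 2) := le_max_right _ _
      have h4 : (t - ord z) ^ 2 ≤ max 1 ((R / L) ^ 2) * ((t - ord z) ^ 2 / (R / L) ^ 2) := by
        rw [← mul_div_assoc, le_div_iff₀ (by positivity), mul_comm]
        exact mul_le_mul_of_nonneg_right h3 (sq_nonneg _)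
      linarith
    calc 2 * mu z / R ^ 2 * (1 + ((t - ord z) / (R / L)) ^ 2)⁻¹
        ≤ 2 * mu z / R ^ 2 * (max 1 ((R / L) ^ 2) * (1 / (1 + (t - ord z) ^ 2))) :=
          mul_le_mul_of_nonneg_left h1 (by positivity)
      _ = K * (mu z / (1 + (t - ord z) ^ 2)) := by
          rw [hK]
          ring
  have hIntS : IntegrableOn (Far L R) S := by
    refine ⟨?_, ?_⟩
    · have hm : Measurable (Far L R) := by
        have h1 : Far L R = fun t => (∑' z : Zer, ENNReal.ofReal (farw_f L R z t)).toReal := by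
          ext t
          rw [farw_eq, ← ENNReal.ofReal_tsum_of_nonneg (fun z => farw_f_nonneg L R z t) (hsumt t),
            ENNReal.toReal_ofReal (tsum_nonneg fun z => farw_f_nonneg L R z t)]
        rw [h1]
        exact (Measurable.tsum fun z => (farw_f_meas L R z).ennreal_ofReal).ennreal_toReal
      exact hm.aestronglyMeasurable
    · rw [hasFiniteIntegral_iff_ofReal (Eventually.of_forall fun t => by
        rw [farw_eq]
        exact tsum_nonneg fun z => farw_f_nonneg L R z t)]
      have h1 : ∀ t, ENNReal.ofReal (Far L R t) = ∑' z : Zer, ENNReal.ofReal (farw_f L R z t) := by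
        intro t
        rw [farw_eq, ENNReal.ofReal_tsum_of_nonneg (fun z => farw_f_nonneg L R z t) (hsumt t)]
      simp_rw [h1]
      rw [lintegral_tsum fun z => (farw_f_meas L R z).ennreal_ofReal.aemeasurable]
      have h2 : ∀ z : Zer, ∫⁻ t in S, ENNReal.ofReal (farw_f L R z t) =
          ENNReal.ofReal (∫ t in S, farw_f L R z t) := by
        intro z
        rw [ofReal_integral_eq_lintegral_ofReal (hint z)
          (Eventually.of_forall (farw_f_nonneg L R z))]
      simp_rw [h2]
      rw [← ENNReal.ofReal_tsum_of_nonneg hnn hsum]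
      exact ENNReal.ofReal_lt_top
  refine ⟨?_, ?_⟩
  · rw [integrableOn_Icc_iff_integrableOn_Ioc]
    exact hIntS
  · rw [intervalIntegral.integral_of_le (by linarith), heq]
    exact hle

end Pool.Agent.MP_67227b_nt.Pp
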