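import Pool.Agent.MP_67227b_nt.Ppw.PpwMeas
import Pool.Agent.MP_67227b_nt.Ppw.PpwFar
import Pool.Agent.MP_67227b_nt.Ppw.PpwCov

set_option autoImplicit false

open Filter Topology Set MeasureTheory Complex
open scoped Real ArithmeticFunction ContDiff

namespace Pool.Agent.MP_67227b_nt.Pp

open Pool.Agent.Lib.ZetaCount_helper33 Pool.Agent.MP_67227b_nt Pool.Agent.MP_67227b_nt.Mo
open Pool.Agent.MP_67227b_nt.Sg
open Pool.Agent.MP_67227b_nt.Mo.MomentBAux (DP)

/-- The measure of the set where `Far` is large. -/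
lemma Far_markov_w {L R A W C ε : ℝ} (hW : 0 ≤ W) (hε : 0 < ε)
    (hi : IntegrableOn (Far L R) (Icc A (A + W)))
    (hb : ∫ t in A..(A + W), Far L R t ≤ C * W / R) :
    volume.real {t ∈ Icc A (A + W) | ε ≤ Far L R t} ≤ C * W / R / ε := by
  have h1 := mul_meas_ge_le_integral_of_nonneg (μ := volume.restrict (Icc A (A + W)))
    (f := Far L R) (Eventually.of_forall fun t => Far_nonneg L R t) hi ε
  have h2 : ∫ t in Icc A (A + W), Far L R t = ∫ t in A..(A + W), Far L R t := by
    rw [intervalIntegral.integral_of_le (by linarith), integral_Icc_eq_integral_Ioc]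
  have h3 : volume.real {t ∈ Icc A (A + W) | ε ≤ Far L R t} ≤
      (volume.restrict (Icc A (A + W))).real {t | ε ≤ Far L R t} := by
    rw [measureReal_def, measureReal_def]
    apply ENNReal.toReal_mono
    · exact (measure_lt_top _ _).ne
    · have h4 : {t ∈ Icc A (A + W) | ε ≤ Far L R t} =
          {t | ε ≤ Far L R t} ∩ Icc A (A + W) := by
        ext t
        simp only [mem_setOf_eq, mem_inter_iff]
        tauto
      rw [h4]
      exact Measure.le_restrict_apply _ _
  rw [h2] at h1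
  rw [le_div_iff₀ hε]
  nlinarith

/-- MODULE W10. `pos_prop` (Pp/PpFinal) for windows. -/
theorem pos_prop_w (hRH : RiemannHypothesis) {lam θ : ℝ} (hlam : 1 / 2 < lam) (hθ0 : 0 < θ)
    (hθ1 : θ ≤ 1) (hθ : 1 / lam - 1 < θ) :
    ∃ c : ℝ, 0 < c ∧ ∀ᶠ T : ℝ in atTop, c * (T ^ θ * Real.log T) ≤
      ((windowPairs T (T ^ θ) lam).ncard : ℝ) := by
  have hlam0 : 0 < lam := by linarith
  have hm : max (1 / 2) (1 / (1 + θ)) < min lam 1 := by
    rw [max_lt_iff, lt_min_iff, lt_min_iff]
    refine ⟨⟨hlam, by norm_num⟩, ?_, ?_⟩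
    · rw [div_lt_iff₀ (by linarith)]
      have h1 : 1 / lam < 1 + θ := by linarith
      rw [div_lt_iff₀ hlam0] at h1
      linarith
    · rw [div_lt_one (by linarith)]
      linarith
  obtain ⟨u, hu', hum⟩ := exists_between hm
  have hu : 1 / 2 < u := (le_max_left _ _).trans_lt hu'
  have hu1 : u < 1 := hum.trans_le (min_le_right _ _)
  have hul : u < lam := hum.trans_le (min_le_left _ _)
  have hu0 : 0 < u := by linarith
  have huθ : 1 / u - 1 < θ := by
    have h1 : 1 / (1 + θ) < u := (le_max_right _ _).trans_lt hu'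
    rw [div_lt_iff₀ (by linarith)] at h1
    rw [sub_lt_iff_lt_add, div_lt_iff₀ hu0]
    linarith
  obtain ⟨β, c₁, hβ, hc₁, hM⟩ := meas_large_w hRH hu hu1 hθ1 huθ
  obtain ⟨cs, C, R₀, hcs, hC, hR₀, hS⟩ := Th_sep hRH hu0 hul hβ
  set c := min c₁ (min (cs / 8) (1 / 2)) with hcdef
  have hc0 : 0 < c := lt_min hc₁ (lt_min (by linarith) (by norm_num))
  have hcc : c ≤ c₁ := min_le_left _ _
  have hc8 : c ≤ cs / 8 := (min_le_right _ _).trans (min_le_left _ _)
  have hc12 : c ≤ 1 / 2 := (min_le_right _ _).trans (min_le_right _ _)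
  obtain ⟨c₃, hc₃, hE⟩ := hM c hc0 hcc (by linarith)
  obtain ⟨C₂, hC₂, hF⟩ := Far_mean_w hRH (θ := θ / 2) (by linarith) (by linarith)
  set R := max (max R₀ 1) (4 * C * C₂ / (cs * c₃)) with hRdef
  have hRR₀ : R₀ ≤ R := (le_max_left _ _).trans (le_max_left _ _)
  have hR1 : 1 ≤ R := (le_max_right _ _).trans (le_max_left _ _)
  have hR2 : 4 * C * C₂ / (cs * c₃) ≤ R := le_max_right _ _
  have hR0 : 0 < R := by linarith
  obtain ⟨c', hc', hP⟩ := pairs_of_meas_w (lam := lam) (R := R) (c := c₃ / 2)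
    hlam0 hR0 (by linarith)
  refine ⟨c' / 4, by positivity, ?_⟩
  have ev1 : ∀ᶠ T : ℝ in atTop, (16 : ℝ) ≤ T ^ (θ / 2) :=
    (tendsto_rpow_atTop (by linarith : 0 < θ / 2)).eventually_ge_atTop 16
  filter_upwards [hE, hF R hR1, hS R hRR₀, hP, ev1, eventually_gt_atTop 1] with T h1 h2 h3 h4 h16
    hT1
  have hT : 0 < T := by linarith
  have hH2 : T ^ θ = T ^ (θ / 2) * T ^ (θ / 2) := by
    rw [← Real.rpow_add hT, add_halves]
  have hHT : T ^ θ ≤ T := by
    calc T ^ θ ≤ T ^ (1 : ℝ) := Real.rpow_le_rpow_of_exponent_le hT1.le hθ1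
      _ = T := Real.rpow_one T
  set H : ℝ := T ^ θ with hH
  have hH16 : 16 * T ^ (θ / 2) ≤ H := by
    rw [hH2]
    gcongr
  have hH256 : 256 ≤ H := by linarith
  set A : ℝ := T - 3 / 8 * H with hA
  set W : ℝ := H / 4 with hW
  have hW0 : 0 ≤ W := by linarith
  have h1' := h1 A W (by linarith) (by linarith) (by linarith)
  have h2' := h2 A W (by linarith) (by linarith) (by linarith)
  have hsubI : Icc A (A + W) ⊆ Icc (T / 2) (3 * T) := Icc_subset_Icc (by linarith) (by linarith)
  have h5 : c₃ / 2 * W ≤ volume.real {t ∈ Icc A (A + W) |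
      ¬ Sg.Sep (Icc (t - R / Real.log T) (t + R / Real.log T)) (2 * π * lam / Real.log T)} := by
    have hMk := Far_markov_w hW0 (ε := cs / (2 * C)) (by positivity) h2'.1 h2'.2
    have hsub : {t ∈ Icc A (A + W) | π - 2 * c ≤
        Th (2 * π * u / Real.log T) (β / Real.log T) t} ⊆
        {t ∈ Icc A (A + W) | ¬ Sg.Sep (Icc (t - R / Real.log T) (t + R / Real.log T))
          (2 * π * lam / Real.log T)} ∪
        {t ∈ Icc A (A + W) | cs / (2 * C) ≤ Far (Real.log T) R t} := by
      rintro t ⟨ht, hth⟩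
      by_cases hsep : Sg.Sep (Icc (t - R / Real.log T) (t + R / Real.log T))
          (2 * π * lam / Real.log T)
      · right
        refine ⟨ht, ?_⟩
        have h5 := h3 t (hsubI ht) hsep
        rw [div_le_iff₀ (by positivity)]
        nlinarith
      · left
        exact ⟨ht, hsep⟩
    have hfin : volume (Icc A (A + W)) ≠ ⊤ := by
      rw [Real.volume_Icc]
      exact ENNReal.ofReal_ne_top
    have h6 := (measureReal_mono hsub (measure_union_ne_top
      (measure_ne_top_of_subset (fun x hx => hx.1) hfin)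
      (measure_ne_top_of_subset (fun x hx => hx.1) hfin))).trans (measureReal_union_le _ _)
    have h7 : C₂ * W / R / (cs / (2 * C)) ≤ c₃ / 2 * W := by
      rw [div_div, div_le_iff₀ (by positivity)]
      have h8 : 4 * C * C₂ ≤ R * (cs * c₃) := by
        rwa [div_le_iff₀ (by positivity)] at hR2
      have h9 : c₃ / 2 * W * (R * (cs / (2 * C))) = R * (cs * c₃) * W / (4 * C) := by
        field_simp
        ring
      rw [h9, le_div_iff₀ (by positivity)]
      nlinarith
    linarith
  have h6 := h4 H A W (by linarith) hW0 (by linarith) (by linarith) h5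
  refine le_trans (le_of_eq ?_) h6
  rw [hW]
  ring

end Pool.Agent.MP_67227b_nt.Pp
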