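import Pool.Agent.MP_67227b_nt.Pp.PpFinal
import Pool.Agent.MP_67227b_nt.Ppw.PpwDefs

set_option autoImplicit false

open Filter Topology Set MeasureTheory Complex
open scoped Real ArithmeticFunction ContDiff

namespace Pool.Agent.MP_67227b_nt.Pp

open Pool.Agent.Lib.ZetaCount_helper33 Pool.Agent.MP_67227b_nt Pool.Agent.MP_67227b_nt.Mo
open Pool.Agent.MP_67227b_nt.Sg
open Pool.Agent.MP_67227b_nt.Mo.MomentBAux (DP)

namespace W1Aux

open MeanBBAux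

/-- the moment over `[0, H]` -/
theorem mom {C κ₀ κ₁ T k H θ : ℝ} {q : ℕ} (hC : 0 < C) (hκ : 1 ≤ κ₀) (hT : 1 < T) (hk : 0 < k)
    (hθ : 0 < θ) (hκ₁ : κ₁ = κ₀ / θ) (hH : Real.exp (θ * Real.log T) ≤ H)
    (hLm : 6 ≤ κ₀ * Real.log T / k) (hq : (q : ℝ) ≤ k / (4 * κ₁)) (hq1 : 1 ≤ q)
    (h2q : 2 * 2 ^ q ≤ Real.exp (θ * Real.log T / 2)) (a : ℕ → ℂ)
    (ha : ∀ n, ‖a n‖ ≤ C * k / Real.log T * (Λ n / Real.sqrt n)) :
    ∫ t in (0 : ℝ)..H, ‖DP (Finset.Ioc 0 ⌊T ^ (κ₀ / k)⌋₊) a t‖ ^ (2 * q) ≤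
      2 * H * (2 * (C * κ₀) ^ 2 * q) ^ q := by
  have hT0 : 0 < T := by linarith
  have hκ0 : 0 < κ₀ := by linarith
  have hκ10 : 0 < κ₁ := by rw [hκ₁]; positivity
  have hlogT : 0 < Real.log T := Real.log_pos hT
  have hH0 : 0 < H := lt_of_lt_of_le (Real.exp_pos _) hH
  set Lm : ℝ := κ₀ * Real.log T / k with hLmdef
  have hLm0 : 0 < Lm := by linarith
  set Y : ℝ := T ^ (κ₀ / k) with hY
  have hY0 : 0 < Y := Real.rpow_pos_of_pos hT0 _
  have hY1 : 1 ≤ Y := Real.one_le_rpow hT.le (by positivity)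
  have hlogY : Real.log Y = Lm := by
    rw [hY, Real.log_rpow hT0, hLmdef]
    ring
  set K : ℝ := C * κ₀ with hKdef
  have hK0 : 0 < K := by positivity
  have hKL : K / Lm = C * k / Real.log T := by
    rw [hKdef, hLmdef]
    field_simp
  have hN1 : 1 ≤ ⌊Y⌋₊ := Nat.le_floor (by exact_mod_cast hY1)
  set S := Finset.Ioc 0 ⌊Y⌋₊ with hS
  have hSY : ∀ n ∈ S, (n : ℝ) ≤ Y := by
    intro n hn
    exact (Nat.le_floor_iff hY0.le).1 (Finset.mem_Ioc.1 hn).2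
  have ha' : ∀ n ∈ S, ‖a n‖ ≤ K / Lm * (Λ n / Real.sqrt n) := by
    intro n _
    rw [hKL]
    exact ha n
  have h1 := MomentBAux.moment_le q ⌊Y⌋₊ S
    (fun n hn => Finset.mem_range.2 (Nat.lt_succ_of_le (Finset.mem_Ioc.1 hn).2))
    (fun n hn => (Finset.mem_Ioc.1 hn).1) a (B := H) hY1 hSY hLm0 hlogY.le hK0.le
    hH0.le ha'
  have hM : ∑ n ∈ S, Λ n / n ≤ 2 * Lm := by
    have h2 := Pool.Agent.BrunHooley.MertensAux.M_le ⌊Y⌋₊ (by omega)
    have h3 : Real.log ⌊Y⌋₊ ≤ Lm := by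
      rw [← hlogY]
      exact Real.log_le_log (by exact_mod_cast hN1) (Nat.floor_le hY0.le)
    have h4 : Real.log 4 ≤ 2 := by
      have : Real.log 4 = 2 * Real.log 2 := by
        rw [show (4 : ℝ) = 2 ^ 2 by norm_num, Real.log_pow]; norm_num
      rw [this]
      have := Real.log_two_lt_d9
      linarith
    have h5 : Pool.Agent.BrunHooley.MertensAux.M ⌊Y⌋₊ = ∑ n ∈ S, Λ n / n := rfl
    rw [← h5]
    linarith
  have hM0 : 0 ≤ ∑ n ∈ S, Λ n / n := Finset.sum_nonneg fun n _ =>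
    div_nonneg ArithmeticFunction.vonMangoldt_nonneg (Nat.cast_nonneg n)
  have hq0 : (0 : ℝ) < q := by exact_mod_cast hq1
  have hq1' : (1 : ℝ) ≤ q := by exact_mod_cast hq1
  refine h1.trans ?_
  have hA : H * ((K / Lm) ^ 2 * (∑ n ∈ S, Λ n / n) * (q * Lm)) ^ q ≤
      H * (2 * K ^ 2 * q) ^ q := by
    have h6 : (K / Lm) ^ 2 * (∑ n ∈ S, Λ n / n) * (q * Lm) ≤ 2 * K ^ 2 * q := by
      calc (K / Lm) ^ 2 * (∑ n ∈ S, Λ n / n) * (q * Lm)
          ≤ (K / Lm) ^ 2 * (2 * Lm) * (q * Lm) := by gcongr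
        _ = 2 * K ^ 2 * q := by field_simp
    gcongr
  have hs : ∑ n ∈ S, ‖a n‖ ≤ 2 * K * Real.sqrt Y := by
    calc ∑ n ∈ S, ‖a n‖ ≤ ∑ n ∈ S, K / Lm * Real.sqrt Y * (Λ n / n) := by
          refine Finset.sum_le_sum fun n hn => (ha' n hn).trans ?_
          have hn1 : 1 ≤ n := (Finset.mem_Ioc.1 hn).1
          have hn0 : (0 : ℝ) < n := by exact_mod_cast hn1
          have hsn : 0 < Real.sqrt n := Real.sqrt_pos.2 hn0
          have h7 : Λ n / Real.sqrt n = Real.sqrt n * (Λ n / n) := by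
            have : (n : ℝ) = Real.sqrt n * Real.sqrt n := (Real.mul_self_sqrt hn0.le).symm
            field_simp
            rw [Real.sq_sqrt hn0.le]
          rw [h7, mul_assoc]
          have h8 : Real.sqrt n ≤ Real.sqrt Y := Real.sqrt_le_sqrt (hSY n hn)
          have h9 : 0 ≤ Λ n / (n : ℝ) :=
            div_nonneg ArithmeticFunction.vonMangoldt_nonneg (Nat.cast_nonneg n)
          gcongr
      _ = K / Lm * Real.sqrt Y * ∑ n ∈ S, Λ n / n := by rw [Finset.mul_sum]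
      _ ≤ K / Lm * Real.sqrt Y * (2 * Lm) := by gcongr
      _ = 2 * K * Real.sqrt Y := by field_simp
  have hB : 2 * Y ^ q * (∑ n ∈ S, ‖a n‖) ^ (2 * q) ≤ H * (2 * K ^ 2 * q) ^ q := by
    have h10 : (∑ n ∈ S, ‖a n‖) ^ (2 * q) ≤ (2 * K * Real.sqrt Y) ^ (2 * q) := by
      gcongr
    have h11 : (2 * K * Real.sqrt Y) ^ (2 * q) = (4 * K ^ 2 * Y) ^ q := by
      rw [pow_mul]
      congr 1
      rw [mul_pow, Real.sq_sqrt hY0.le]
      ring
    have h12 : Y ^ q * Y ^ q ≤ Real.exp (θ * Real.log T / 2) := by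
      have h13 : Y = Real.exp Lm := by rw [← hlogY, Real.exp_log hY0]
      rw [h13, ← Real.exp_nat_mul, ← Real.exp_add]
      apply Real.exp_le_exp.2
      have h14 : (q : ℝ) * Lm ≤ k / (4 * κ₁) * Lm := by gcongr
      have h15 : k / (4 * κ₁) * Lm = θ * Real.log T / 4 := by
        rw [hLmdef, hκ₁]
        field_simp
      linarith
    have h16 : Real.exp (θ * Real.log T / 2) * Real.exp (θ * Real.log T / 2) ≤ H := by
      rw [← Real.exp_add, add_halves]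
      exact hH
    have hP : 0 ≤ (2 * K ^ 2) ^ q := by positivity
    calc 2 * Y ^ q * (∑ n ∈ S, ‖a n‖) ^ (2 * q) ≤ 2 * Y ^ q * (4 * K ^ 2 * Y) ^ q := by
          rw [← h11]
          gcongr
      _ = (2 * 2 ^ q) * (Y ^ q * Y ^ q) * (2 * K ^ 2) ^ q := by
          rw [show 4 * K ^ 2 * Y = 2 * (2 * K ^ 2) * Y by ring, mul_pow, mul_pow]
          ring
      _ ≤ Real.exp (θ * Real.log T / 2) * Real.exp (θ * Real.log T / 2) * (2 * K ^ 2) ^ q := by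
          gcongr
      _ ≤ H * (2 * K ^ 2) ^ q := by gcongr
      _ ≤ H * (2 * K ^ 2 * q) ^ q := by
          have : 2 * K ^ 2 ≤ 2 * K ^ 2 * q := le_mul_of_one_le_right (by positivity) hq1'
          gcongr
  calc _ ≤ H * (2 * K ^ 2 * q) ^ q + H * (2 * K ^ 2 * q) ^ q := add_le_add hA hB
    _ = 2 * H * (2 * K ^ 2 * q) ^ q := by ring

theorem shift (S : Finset ℕ) (a : ℕ → ℂ) (A t : ℝ) :
    DP S a (A + t) = DP S (fun n => a n * E (-(Real.log n)) A) t := by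
  unfold DP
  refine Finset.sum_congr rfl fun n _ => ?_
  rw [mul_assoc]
  congr 1
  unfold E
  rw [← Complex.exp_add]
  congr 1
  push_cast
  ring

theorem shift_norm (a : ℕ → ℂ) (A : ℝ) (n : ℕ) : ‖a n * E (-(Real.log n)) A‖ = ‖a n‖ := by
  unfold E
  rw [norm_mul]
  have : Complex.exp (I * (A : ℂ) * ((-(Real.log n) : ℝ) : ℂ)) =
      Complex.exp (((A * -(Real.log n) : ℝ) : ℂ) * I) := by
    congr 1
    push_cast
    ring
  rw [this, Complex.norm_exp_ofReal_mul_I, mul_one]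

theorem shift_meas (P : ℝ → Prop) (A H : ℝ) :
    volume.real {t ∈ Icc A (A + H) | P t} = volume.real {t ∈ Icc 0 H | P (A + t)} := by
  have h : {t ∈ Icc A (A + H) | P t} = (fun t => -A + t) ⁻¹' {t ∈ Icc 0 H | P (A + t)} := by
    ext t
    simp only [mem_setOf_eq, mem_preimage, mem_Icc]
    constructor
    · rintro ⟨⟨h1, h2⟩, h3⟩
      refine ⟨⟨by linarith, by linarith⟩, ?_⟩
      rwa [show A + (-A + t) = t by ring]
    · rintro ⟨⟨h1, h2⟩, h3⟩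
      refine ⟨⟨by linarith, by linarith⟩, ?_⟩
      rwa [show A + (-A + t) = t by ring] at h3
  rw [h, Measure.real, measure_preimage_add, Measure.real]

end W1Aux

open W1Aux MeanBBAux in
/-- MODULE W1. `level_meas` (Pp/PpLevel) for windows `[A, A + H]`, `T^θ ≤ H`. Same proof:
with `κ₁ = κ₀/θ` (this is the `κ₀` of the statement) and `q = ⌊k/(4κ₁)⌋ = ⌊θk/(4κ₀)⌋`. The moment over
`[A, A + H]`: `DP S a (A + t) = DP S a' t` with `‖a' n‖ = ‖a n‖` (`a' n = a n * E (log n) A`), so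
`moment_le` with `B = H` applies: `∫_A^{A+H} ‖DP‖^{2q} ≤ H (2K²q)^q + 2 (4K²)^q Y^{2q}`,
`Y^{2q} ≤ T^{θ/2}`, `2 · 2^q ≤ T^{θ/2}`. -/
theorem level_meas_w {f : ℝ → ℝ → ℝ} (hf : LD f) {θ : ℝ} (hθ : 0 < θ) (hθ1 : θ ≤ 1) :
    ∃ C κ₀ : ℝ, 0 < C ∧ 1 ≤ κ₀ ∧ ∀ A₀ : ℝ, 0 < A₀ →
    ∀ᶠ T : ℝ in atTop, ∀ A H : ℝ, T / 2 ≤ A → T ^ θ ≤ H → A + H ≤ 3 * T →
      ∀ k : ℝ, 8 * κ₀ ≤ k → k ≤ A₀ * Real.log T / Real.log (Real.log T) →
      volume.real {t ∈ Icc A (A + H) | 3 * C * k < f T t} ≤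
        8 * H * (κ₀ / (2 * k)) ^ ⌊k / (4 * κ₀)⌋₊ := by
  obtain ⟨C, κ₀, hC, hκ, hev⟩ := hf
  have hκ0 : 0 < κ₀ := by linarith
  have hκκ : κ₀ ≤ κ₀ / θ := by
    rw [le_div_iff₀ hθ]
    nlinarith
  refine ⟨C, κ₀ / θ, hC, hκ.trans hκκ, fun A₀ hA => ?_⟩
  have hll := (Real.tendsto_log_atTop.comp Real.tendsto_log_atTop).eventually_ge_atTop
    ((6 + 2 / θ) * A₀ + 1)
  filter_upwards [hev, hll, eventually_gt_atTop (Real.exp (4 / θ))] with T h1 h2 h3 A H hTA hTH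
    hAH k hk8 hkA
  set κ₁ : ℝ := κ₀ / θ with hκ₁
  have hκ10 : 0 < κ₁ := by positivity
  have h2' : (6 + 2 / θ) * A₀ + 1 ≤ Real.log (Real.log T) := h2
  have hk0 : 0 < k := by linarith
  have hT0 : 0 < T := lt_trans (Real.exp_pos _) h3
  have hlog4 : 4 / θ < Real.log T := by
    rw [Real.lt_log_iff_exp_lt hT0]
    exact h3
  have h4θ : 4 ≤ 4 / θ := by
    rw [le_div_iff₀ hθ]
    nlinarith
  have hlog40 : 4 < θ * Real.log T := by
    rw [div_lt_iff₀ hθ] at hlog4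
    linarith
  have hT1 : 1 < T := by
    by_contra hc
    have := Real.log_nonpos hT0.le (not_lt.1 hc)
    linarith
  have h20 : 0 ≤ 2 / θ * A₀ := by positivity
  have hll0 : 0 < Real.log (Real.log T) := by nlinarith
  have hkA' : k * Real.log (Real.log T) ≤ A₀ * Real.log T := by
    rw [le_div_iff₀ hll0] at hkA
    exact hkA
  have hk6 : k * ((6 + 2 / θ) * A₀ + 1) ≤ A₀ * Real.log T :=
    (mul_le_mul_of_nonneg_left h2' hk0.le).trans hkA'
  have hk6' : (6 + 2 / θ) * k ≤ Real.log T := by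
    by_contra hc
    have hc' := not_le.1 hc
    have : A₀ * Real.log T < A₀ * ((6 + 2 / θ) * k) := mul_lt_mul_of_pos_left hc' hA
    nlinarith
  have h2k : 0 ≤ 2 / θ * k := by positivity
  have hk6'' : 6 * k ≤ Real.log T := by linarith
  have hklog : k ≤ Real.log T := by linarith
  have hkθ : 2 * k ≤ θ * Real.log T := by
    have h4 : 2 / θ * k ≤ Real.log T := by linarith
    have h5 : θ * (2 / θ * k) ≤ θ * Real.log T := mul_le_mul_of_nonneg_left h4 hθ.le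
    have h6 : θ * (2 / θ * k) = 2 * k := by field_simp
    linarith
  have hLm : 6 ≤ κ₀ * Real.log T / k := by
    rw [le_div_iff₀ hk0]
    nlinarith
  obtain ⟨a, b, ha, hb, hfb⟩ := h1 k (by linarith) hklog
  set q := ⌊k / (4 * κ₁)⌋₊ with hqdef
  have hqle : (q : ℝ) ≤ k / (4 * κ₁) := Nat.floor_le (by positivity)
  have hq1 : 1 ≤ q := by
    apply Nat.le_floor
    rw [Nat.cast_one, le_div_iff₀ (by positivity)]
    linarith
  have hq1' : (1 : ℝ) ≤ q := by exact_mod_cast hq1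
  have h2q : 2 * 2 ^ q ≤ Real.exp (θ * Real.log T / 2) := by
    have h4 : (2 : ℝ) ≤ Real.exp 1 := by
      have := Real.exp_one_gt_d9
      linarith
    have h5 : (2 : ℝ) * 2 ^ q ≤ Real.exp 1 * Real.exp 1 ^ q := by gcongr
    refine h5.trans ?_
    rw [← Real.exp_nat_mul, ← Real.exp_add]
    apply Real.exp_le_exp.2
    have h6 : (q : ℝ) ≤ k / 4 := by
      refine hqle.trans ?_
      have : 1 ≤ κ₁ := hκ.trans hκκ
      gcongr
      linarith
    linarith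
  have hCk : 0 < C * k := by positivity
  have hHe : Real.exp (θ * Real.log T) ≤ H := by
    rw [mul_comm, ← Real.rpow_def_of_pos hT0]
    exact hTH
  have hH0 : 0 < H := lt_of_lt_of_le (Real.exp_pos _) hHe
  have key : ∀ a : ℕ → ℂ, (∀ n, ‖a n‖ ≤ C * k / Real.log T * (Λ n / Real.sqrt n)) →
      volume.real {t ∈ Icc A (A + H) | C * k < ‖DP (Finset.Ioc 0 ⌊T ^ (κ₀ / k)⌋₊) a t‖} ≤
        2 * H * (κ₁ / (2 * k)) ^ q := by
    intro a ha
    rw [shift_meas (fun t => C * k < ‖DP (Finset.Ioc 0 ⌊T ^ (κ₀ / k)⌋₊) a t‖)]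
    simp only [shift]
    refine (E1_cheb (MomentBAux.DP_continuous _ _) hCk hH0.le
      (mom hC hκ hT1 hk0 hθ hκ₁ hHe hLm hqle hq1 h2q _ fun n => by
        rw [shift_norm]; exact ha n)).trans ?_
    rw [mul_div_assoc, pow_mul, ← div_pow]
    have h7 : 2 * (C * κ₀) ^ 2 * q / (C * k) ^ 2 ≤ κ₁ / (2 * k) := by
      rw [div_le_div_iff₀ (by positivity) (by positivity)]
      have h8 : (q : ℝ) * (4 * κ₁) ≤ k := by
        rw [le_div_iff₀ (by positivity)] at hqle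
        exact hqle
      have h9 : 0 < C ^ 2 * κ₁ * k := by positivity
      have h10 : κ₀ ^ 2 ≤ κ₁ ^ 2 := by gcongr
      calc 2 * (C * κ₀) ^ 2 * q * (2 * k) = (C ^ 2 * k * 4 * q) * κ₀ ^ 2 := by ring
        _ ≤ (C ^ 2 * k * 4 * q) * κ₁ ^ 2 := by gcongr
        _ = C ^ 2 * κ₁ * k * (q * (4 * κ₁)) := by ring
        _ ≤ C ^ 2 * κ₁ * k * k := by gcongr
        _ = κ₁ * (C * k) ^ 2 := by ring
    gcongr
  have hsub : {t ∈ Icc A (A + H) | 3 * C * k < f T t} ⊆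
      {t ∈ Icc A (A + H) | C * k < ‖DP (Finset.Ioc 0 ⌊T ^ (κ₀ / k)⌋₊) a t‖} ∪
      {t ∈ Icc A (A + H) | C * k < ‖DP (Finset.Ioc 0 ⌊T ^ (κ₀ / k)⌋₊) b t‖} := by
    rintro t ⟨ht1, ht2⟩
    have h10 := hfb t ⟨hTA.trans ht1.1, ht1.2.trans hAH⟩
    by_cases hh : C * k < ‖DP (Finset.Ioc 0 ⌊T ^ (κ₀ / k)⌋₊) a t‖
    · exact Or.inl ⟨ht1, hh⟩
    · refine Or.inr ⟨ht1, ?_⟩
      have := not_lt.1 hh
      nlinarith
  have hfin : volume ({t ∈ Icc A (A + H) | C * k < ‖DP (Finset.Ioc 0 ⌊T ^ (κ₀ / k)⌋₊) a t‖} ∪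
      {t ∈ Icc A (A + H) | C * k < ‖DP (Finset.Ioc 0 ⌊T ^ (κ₀ / k)⌋₊) b t‖}) ≠ ⊤ := by
    refine ne_of_lt (lt_of_le_of_lt (measure_mono (t := Icc A (A + H)) ?_) ?_)
    · rintro t (ht | ht)
      · exact ht.1
      · exact ht.1
    · exact isCompact_Icc.measure_lt_top
  refine (measureReal_mono hsub hfin).trans ((measureReal_union_le _ _).trans ?_)
  have h11 := key a ha
  have h12 := key b hb
  have h13 : 0 ≤ H * (κ₁ / (2 * k)) ^ q := by positivity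
  linarith

end Pool.Agent.MP_67227b_nt.Pp
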