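import Pool.Agent.MP_67227b_nt.Ppw.PpwExp

set_option autoImplicit false

open Filter Topology Set MeasureTheory Complex
open scoped Real ArithmeticFunction ContDiff

namespace Pool.Agent.MP_67227b_nt.Pp

open Pool.Agent.Lib.ZetaCount_helper33 Pool.Agent.MP_67227b_nt Pool.Agent.MP_67227b_nt.Mo
open Pool.Agent.MP_67227b_nt.Sg
open Pool.Agent.MP_67227b_nt.Mo.MomentBAux (DP)

private lemma meanw_Qi_cont (T η : ℝ) (i : ℕ) : Continuous (Qi T η i) := by
  unfold Qi
  refine continuous_finsetSum _ fun p hp => ?_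
  have hp0 : (p : ℂ) ≠ 0 := by
    have := (Finset.mem_filter.mp hp).2.ne_zero
    exact_mod_cast this
  exact continuous_const.mul (continuous_neg.const_cpow (Or.inl hp0))

private lemma meanw_Ap_cont (T η κ : ℝ) (i0 i1 K : ℕ) : Continuous (Ap T η κ i0 i1 K) := by
  unfold Ap
  refine continuous_finsetSum _ fun k _ => continuous_const.mul ?_
  refine continuous_finsetSum _ fun J _ => ?_
  exact continuous_finsetProd _ fun j _ => meanw_Qi_cont T η (J j)

private lemma meanw_pl_cont (σ a : ℝ) : Continuous (fun t : ℝ => pl σ (t + a)) := by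
  unfold pl
  fun_prop

private lemma meanw_Hq_cont (hRH : RiemannHypothesis) {α σ a b : ℝ} (hα : 0 ≤ α)
    (hσ : 1 / 2 < σ) (ha : 0 < a) : ContinuousOn (fun t : ℝ => Hq α (pl σ t)) (Icc a b) := by
  intro t ht
  have h1 : DifferentiableAt ℂ (Hq α) (pl σ t) :=
    differentiableAt_Hq hRH hα (by rw [pl_re]; exact hσ) (by rw [pl_im]; linarith [ht.1])
  have h2 : ContinuousAt (fun t : ℝ => pl σ t) t := by
    have := meanw_pl_cont σ 0
    simp only [add_zero] at this
    exact this.continuousAt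
  exact (ContinuousAt.comp (f := fun t : ℝ => pl σ t) (g := Hq α) h1.continuousAt h2).continuousWithinAt

private lemma meanw_sumQ (hRH : RiemannHypothesis) {η β : ℝ} (hη : 0 < η) (hβ : 0 < β)
    (F : Finset ℕ) : (∀ i ∈ F, 1 ≤ i ∧ ((i : ℝ) + 2) * η < 1) → ∃ C : ℝ, 0 < C ∧
      ∀ᶠ T : ℝ in atTop, ∀ t ∈ Icc (T / 4) (4 * T),
        ∑ i ∈ F, ‖Qi T η i (pl (1 / 2 + β / Real.log T) t)‖ ≤ C + C * Mk (Real.log T) 1 t := by
  classical
  refine Finset.induction_on F ?_ ?_
  · intro _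
    refine ⟨1, one_pos, Eventually.of_forall fun T t _ => ?_⟩
    rw [Finset.sum_empty]
    have := Mk_nonneg (Real.log T) 1 t
    linarith
  · intro i F hi ih hF
    obtain ⟨C0, hC0, h0⟩ := ih fun j hj => hF j (Finset.mem_insert_of_mem hj)
    obtain ⟨C1, hC1, h1⟩ := Qi_le hRH hη hβ (hF i (Finset.mem_insert_self i F)).1
      (hF i (Finset.mem_insert_self i F)).2
    refine ⟨C1 + C0, by positivity, ?_⟩
    filter_upwards [h0, h1] with T hT0 hT1 t ht
    rw [Finset.sum_insert hi]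
    have := hT0 t ht
    have := hT1 t ht
    nlinarith

/-- MODULE W6. `mean_sq` (Pp/PpMean) for windows: same proof with `exp_int_w`. -/
theorem mean_sq_w (hRH : RiemannHypothesis) {u β κ η : ℝ} (hu : 0 < u) (hβ : 0 < β) (hκ1 : κ < 1)
    (hη : 0 < η) {i0 i1 K : ℕ} (hi0 : 1 ≤ i0) {θ : ℝ} (hθ : 0 < θ) (hθ1 : θ ≤ 1) :
    ∃ C : ℝ, 0 < C ∧ ∀ᶠ T : ℝ in atTop, ∀ A H : ℝ, T / 2 ≤ A → T ^ θ ≤ H → A + H ≤ 3 * T →
      ∫ t in A..(A + H),
        (‖Hq (2 * π * u / Real.log T) (pl (1 / 2 + β / Real.log T) t)‖ *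
          ‖Ap T η κ i0 i1 K
            (pl (1 / 2 + β / Real.log T) (t + 2 * π * u / Real.log T))‖ ^ 2) ^ 2 ≤ C * H := by
  classical
  set F : Finset ℕ := (Finset.Ico i0 i1).filter (fun i : ℕ => ((i : ℝ) + 2) * η ≤ κ) with hF
  obtain ⟨C0, hC0, hQ⟩ := meanw_sumQ hRH hη hβ F (by
    intro i hi
    rw [hF, Finset.mem_filter, Finset.mem_Ico] at hi
    exact ⟨hi0.trans hi.1.1, lt_of_le_of_lt hi.2 hκ1⟩)
  set A₁ : ℝ := 2 * π * u with hA₁
  have hA₁0 : 0 < A₁ := by positivity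
  set C1 : ℝ := C0 * (2 + 2 * A₁ ^ 2) with hC1
  have hC10 : 0 < C1 := by positivity
  -- the two exponential moments
  obtain ⟨CM, hCM, hMlog⟩ := Mk_log hRH
  have hlog0 : ∀ᶠ T : ℝ in atTop, 0 < Real.log T := by
    filter_upwards [eventually_gt_atTop (1 : ℝ)] with T hT
    exact Real.log_pos hT
  have hMexp := exp_int_w (LD_Mk hRH) (by
      filter_upwards [hlog0] with T hT
      exact (continuous_Mk hRH hT one_pos).continuousOn) ⟨CM, by
      filter_upwards [hMlog, eventually_gt_atTop (0 : ℝ)] with T hT hT0 t ht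
      exact hT t (by linarith [ht.1]) (by linarith [ht.2])⟩ (lam := 8 * C1) (by positivity) hθ hθ1
  obtain ⟨K2, hK2, hM⟩ := hMexp
  obtain ⟨CH, hCH, hHg⟩ := Hq_growth hRH hu hβ
  have hHc : ∀ᶠ T : ℝ in atTop, ContinuousOn (fun t : ℝ =>
      Hq (2 * π * u / Real.log T) (pl (1 / 2 + β / Real.log T) t)) (Icc (T / 2) (3 * T)) := by
    filter_upwards [hlog0, eventually_gt_atTop (0 : ℝ)] with T hT hT0
    exact meanw_Hq_cont hRH (by positivity) (by
      have : 0 < β / Real.log T := by positivity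
      linarith) (by linarith)
  have hpos1 : ∀ z : ℂ, 0 < 1 + ‖z‖ := fun z => by positivity
  have hHexp := exp_int_w (LD_Hq hRH hu hβ) (by
      filter_upwards [hHc] with T hT
      exact (continuousOn_const.add hT.norm).log fun t _ => (hpos1 _).ne') ⟨1 + CH, by
      filter_upwards [hHg, eventually_ge_atTop (Real.exp 1), eventually_ge_atTop (4 : ℝ),
        (Real.tendsto_log_atTop.eventually_ge_atTop β)] with T hT hTe hT4 hTβ t ht
      have hT0 : 0 < T := by linarith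
      have hL1 : 1 ≤ Real.log T := by
        rw [Real.le_log_iff_exp_le hT0]
        exact hTe
      have hL0 : 0 < Real.log T := by linarith
      have h1 := hT (1 / 2 + β / Real.log T) t le_rfl (by
        have : β / Real.log T ≤ 1 := by
          rw [div_le_one hL0]
          exact hTβ
        linarith) (by linarith [ht.1]) (by linarith [ht.2])
      have h2 : 1 + ‖Hq (2 * π * u / Real.log T) (pl (1 / 2 + β / Real.log T) t)‖ ≤
          T * T ^ CH := by
        have h3 : 1 ≤ T ^ CH := Real.one_le_rpow (by linarith) hCH.le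
        nlinarith
      calc Real.log (1 + ‖Hq (2 * π * u / Real.log T) (pl (1 / 2 + β / Real.log T) t)‖)
          ≤ Real.log (T * T ^ CH) := Real.log_le_log (hpos1 _) h2
        _ = (1 + CH) * Real.log T := by
            rw [Real.log_mul hT0.ne' (by positivity), Real.log_rpow hT0]
            ring⟩ (lam := 4) (by norm_num) hθ hθ1
  obtain ⟨K1, hK1, hH⟩ := hHexp
  refine ⟨Real.exp (4 * C0) * (K1 + K2), by positivity, ?_⟩
  filter_upwards [hQ, hM, hH, hHc, eventually_ge_atTop (Real.exp 1), eventually_ge_atTop (4 : ℝ),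
    eventually_ge_atTop (A₁ : ℝ)] with T hQT hMT₀ hHT₀ hHcT₀ hTe hT4 hTA A H hA hTH hAH
  have hsubI : Icc A (A + H) ⊆ Icc (T / 2) (3 * T) := Icc_subset_Icc hA hAH
  have hHcT := hHcT₀.mono hsubI
  have hMT := hMT₀ A H hA hTH hAH
  have hHT := hHT₀ A H hA hTH hAH
  have hH0 : 0 < H := lt_of_lt_of_le (Real.rpow_pos_of_pos (by linarith) _) hTH
  have hT0 : 0 < T := by linarith
  have hL1 : 1 ≤ Real.log T := by
    rw [Real.le_log_iff_exp_le hT0]
    exact hTe
  have hL0 : 0 < Real.log T := by linarith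
  set L := Real.log T with hL
  have hα0 : 0 ≤ A₁ / L := by positivity
  have hα1 : A₁ / L ≤ A₁ := div_le_self hA₁0.le hL1
  have hpt : ∀ t ∈ Icc A (A + H),
      (‖Hq (A₁ / L) (pl (1 / 2 + β / L) t)‖ *
        ‖Ap T η κ i0 i1 K (pl (1 / 2 + β / L) (t + A₁ / L))‖ ^ 2) ^ 2 ≤
      Real.exp (4 * C0) * (Real.exp (4 * Real.log (1 + ‖Hq (A₁ / L) (pl (1 / 2 + β / L) t)‖)) +
        Real.exp (8 * C1 * Mk L 1 t)) := by
    intro t ht
    set x := ‖Hq (A₁ / L) (pl (1 / 2 + β / L) t)‖ with hx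
    have hx0 : 0 ≤ x := norm_nonneg _
    have h1 := hQT (t + A₁ / L) ⟨by linarith [ht.1, hA], by linarith [ht.2, hAH]⟩
    have h2 := Mk_shift hRH (L := L) (k := 1) (A := A₁) (y := A₁ / L) (t := t) hL0 le_rfl hA₁0.le
      (by rw [abs_of_nonneg hα0])
    have h3 := norm_Ap_le (T := T) (κ := κ) hη i0 i1 K (pl (1 / 2 + β / L) (t + A₁ / L))
    have h4 : ‖Ap T η κ i0 i1 K (pl (1 / 2 + β / L) (t + A₁ / L))‖ ≤
        Real.exp (C0 + C1 * Mk L 1 t) := by
      refine h3.trans (Real.exp_le_exp.mpr ?_)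
      refine h1.trans ?_
      rw [hC1]
      have := mul_le_mul_of_nonneg_left h2 hC0.le
      linarith
    set y := ‖Ap T η κ i0 i1 K (pl (1 / 2 + β / L) (t + A₁ / L))‖ with hy
    have hy0 : 0 ≤ y := norm_nonneg _
    have h5 : y ^ 4 ≤ Real.exp (4 * C0) * Real.exp (4 * (C1 * Mk L 1 t)) := by
      have := pow_le_pow_left₀ hy0 h4 4
      refine this.trans (le_of_eq ?_)
      rw [← Real.exp_nat_mul, ← Real.exp_add]
      congr 1
      push_cast
      ring
    have h6 : x ^ 2 ≤ (1 + x) ^ 2 := by nlinarith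
    have h7 : Real.exp (4 * Real.log (1 + x)) = ((1 + x) ^ 2) ^ 2 := by
      rw [mul_comm, ← Real.rpow_def_of_pos (by positivity : 0 < 1 + x), ← pow_mul]
      norm_cast
    have h8 : Real.exp (8 * C1 * Mk L 1 t) = (Real.exp (4 * (C1 * Mk L 1 t))) ^ 2 := by
      rw [← Real.exp_nat_mul]
      congr 1
      push_cast
      ring
    rw [h7, h8]
    have h9 : (x * y ^ 2) ^ 2 = x ^ 2 * y ^ 4 := by ring
    rw [h9]
    have e0 : 0 < Real.exp (4 * C0) := Real.exp_pos _
    set b := Real.exp (4 * (C1 * Mk L 1 t)) with hb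
    have hb0 : 0 < b := Real.exp_pos _
    calc x ^ 2 * y ^ 4 ≤ (1 + x) ^ 2 * (Real.exp (4 * C0) * b) :=
          mul_le_mul h6 h5 (by positivity) (by positivity)
      _ = Real.exp (4 * C0) * ((1 + x) ^ 2 * b) := by ring
      _ ≤ Real.exp (4 * C0) * (((1 + x) ^ 2) ^ 2 + b ^ 2) := by
          refine mul_le_mul_of_nonneg_left ?_ e0.le
          nlinarith [sq_nonneg ((1 + x) ^ 2 - b), sq_nonneg ((1 + x) ^ 2), sq_nonneg b]
  have hc1 : ContinuousOn (fun t : ℝ => Real.exp (4 * Real.log (1 +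
      ‖Hq (A₁ / L) (pl (1 / 2 + β / L) t)‖))) (Icc A (A + H)) :=
    (continuousOn_const.mul ((continuousOn_const.add hHcT.norm).log
      fun t _ => (hpos1 _).ne')).rexp
  have hc2 : Continuous (fun t : ℝ => Real.exp (8 * C1 * Mk L 1 t)) :=
    (continuous_const.mul (continuous_Mk hRH hL0 one_pos)).rexp
  have hc3 : Continuous (fun t : ℝ => Ap T η κ i0 i1 K (pl (1 / 2 + β / L) (t + A₁ / L))) :=
    (meanw_Ap_cont T η κ i0 i1 K).comp (meanw_pl_cont _ _)
  have hle : A ≤ A + H := by linarith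
  have hi1 : IntervalIntegrable (fun t : ℝ => Real.exp (4 * Real.log (1 +
      ‖Hq (A₁ / L) (pl (1 / 2 + β / L) t)‖))) volume A (A + H) :=
    hc1.intervalIntegrable_of_Icc hle
  have hi2 : IntervalIntegrable (fun t : ℝ => Real.exp (8 * C1 * Mk L 1 t)) volume
      A (A + H) := hc2.intervalIntegrable _ _
  have hi3 : IntervalIntegrable (fun t : ℝ => (‖Hq (A₁ / L) (pl (1 / 2 + β / L) t)‖ *
      ‖Ap T η κ i0 i1 K (pl (1 / 2 + β / L) (t + A₁ / L))‖ ^ 2) ^ 2) volume A (A + H) :=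
    ((hHcT.norm.mul (hc3.norm.continuousOn.pow 2)).pow 2).intervalIntegrable_of_Icc hle
  calc ∫ t in A..(A + H), (‖Hq (A₁ / L) (pl (1 / 2 + β / L) t)‖ *
      ‖Ap T η κ i0 i1 K (pl (1 / 2 + β / L) (t + A₁ / L))‖ ^ 2) ^ 2
      ≤ ∫ t in A..(A + H), Real.exp (4 * C0) *
        (Real.exp (4 * Real.log (1 + ‖Hq (A₁ / L) (pl (1 / 2 + β / L) t)‖)) +
          Real.exp (8 * C1 * Mk L 1 t)) :=
        intervalIntegral.integral_mono_on hle hi3 ((hi1.add hi2).const_mul _) hpt
    _ = Real.exp (4 * C0) * ((∫ t in A..(A + H),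
          Real.exp (4 * Real.log (1 + ‖Hq (A₁ / L) (pl (1 / 2 + β / L) t)‖))) +
          ∫ t in A..(A + H), Real.exp (8 * C1 * Mk L 1 t)) := by
        rw [intervalIntegral.integral_const_mul, intervalIntegral.integral_add hi1 hi2]
    _ ≤ Real.exp (4 * C0) * (K1 * H + K2 * H) := by
        refine mul_le_mul_of_nonneg_left (add_le_add hHT hMT) (Real.exp_pos _).le
    _ = Real.exp (4 * C0) * (K1 + K2) * H := by ring

end Pool.Agent.MP_67227b_nt.Pp
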