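import Pool.Agent.MP_67227b_nt.Ppw.PpwT0
import Pool.Agent.MP_67227b_nt.Ppw.PpwFub
import Pool.Agent.MP_67227b_nt.Ppw.PpwMean

set_option autoImplicit false

open Filter Topology Set MeasureTheory Complex
open scoped Real ArithmeticFunction ContDiff

namespace Pool.Agent.MP_67227b_nt.Pp

open Pool.Agent.Lib.ZetaCount_helper33 Pool.Agent.MP_67227b_nt Pool.Agent.MP_67227b_nt.Mo
open Pool.Agent.MP_67227b_nt.Sg
open Pool.Agent.MP_67227b_nt.Mo.MomentBAux (DP)

/-- MODULE W9. `meas_large` (Pp/PpMeas) for windows: same proof with `neg_at_w`, `fub_w`,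
`mean_sq_w`. -/
theorem meas_large_w (hRH : RiemannHypothesis) {u θ₀ : ℝ} (hu : 1 / 2 < u) (hu1 : u < 1)
    (hθ₀1 : θ₀ ≤ 1) (hθ₀ : 1 / u - 1 < θ₀) :
    ∃ β c₁ : ℝ, 0 < β ∧ 0 < c₁ ∧ ∀ c : ℝ, 0 < c → c ≤ c₁ → c < 1 → ∃ c₃ : ℝ, 0 < c₃ ∧
      ∀ᶠ T : ℝ in atTop, ∀ A W : ℝ, 5 * T / 8 ≤ A → T ^ θ₀ / 4 ≤ W → A + W ≤ 2 * T →
        c₃ * W ≤ volume.real {t ∈ Icc A (A + W) |
          π - 2 * c ≤ Th (2 * π * u / Real.log T) (β / Real.log T) t} := by
  obtain ⟨β, κ, c₁, η, c₂, θ, θ₂, i0, i1, K, hβ, hκ, hκ1, hc₁, hη, hc₂, hθ, hθθ₂, hθ₂, hi0, hN⟩ :=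
    neg_at_w hRH hu hu1 hθ₀1 hθ₀
  refine ⟨β, c₁, hβ, hc₁, fun c hc hcc hc1 => ?_⟩
  have hu0 : 0 < u := by linarith
  have hθ₂0 : 0 < θ₂ := hθ.trans hθθ₂
  obtain ⟨C, hC, hM⟩ := mean_sq_w hRH hu0 hβ hκ1 hη (i1 := i1) (K := K) hi0 (θ := θ₂) hθ₂0
    (by linarith)
  have hpi : 0 < Real.sqrt π := Real.sqrt_pos.mpr Real.pi_pos
  set a : ℝ := c₂ / Real.sqrt π / 2 with ha
  have ha0 : 0 < a := by positivity
  refine ⟨a ^ 2 / C, by positivity, ?_⟩
  have ev1 : ∀ᶠ T : ℝ in atTop, (16 : ℝ) ≤ T ^ (θ₀ - θ₂) :=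
    (tendsto_rpow_atTop (by linarith : 0 < θ₀ - θ₂)).eventually_ge_atTop 16
  filter_upwards [hN, hM, Th_large hRH hu0 hβ hc hc1, ev1, eventually_gt_atTop 1] with T hN hM hA
    h16 hT A W hA1 hW1 hAW
  have hT0 : 0 < T := by linarith
  have hX0 : 0 < T ^ θ₂ := Real.rpow_pos_of_pos hT0 _
  have hXW : 4 * T ^ θ₂ ≤ W := by
    have h9 : T ^ θ₀ = T ^ (θ₀ - θ₂) * T ^ θ₂ := by
      rw [← Real.rpow_add hT0, sub_add_cancel]
    have h10 : 16 * T ^ θ₂ ≤ T ^ θ₀ := by
      rw [h9]
      gcongr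
    linarith
  have hM := hM A W (by linarith) (by linarith) (by linarith)
  have hsubI : Icc A (A + W) ⊆ Icc (T / 2) (3 * T) := Icc_subset_Icc (by linarith) (by linarith)
  have hL : 0 < Real.log T := Real.log_pos hT
  set α : ℝ := 2 * π * u / Real.log T with hαdef
  set b : ℝ := β / Real.log T with hbdef
  have hα : 0 < α := by positivity
  have hb : 0 < b := by positivity
  set ψ : ℝ := π * u + c with hψ
  set H : ℝ → ℂ := fun t => Hq α (pl (1 / 2 + b) t) with hH
  set B : ℝ → ℝ := fun t => ‖Ap T η κ i0 i1 K (pl (1 / 2 + b) (t + α))‖ ^ 2 with hB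
  set f : ℝ → ℝ := fun t => (Complex.exp (I * ψ) * H t).im * B t with hf
  set g : ℝ → ℝ := fun t => ‖H t‖ * B t with hg
  set E : Set ℝ := {t ∈ Icc A (A + W) | π - 2 * c ≤ Th α b t} with hEdef
  have hHc : ContinuousOn H (Icc A (A + W)) :=
    continuousOn_Hq_line hRH hα.le hb (by linarith)
  have hBc : Continuous B := by
    apply Continuous.pow
    apply Continuous.norm
    exact (continuous_Ap T η κ i0 i1 K).comp ((continuous_pl (1 / 2 + b)).comp (by fun_prop))
  have hfc : ContinuousOn f (Icc A (A + W)) := by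
    apply ContinuousOn.mul _ hBc.continuousOn
    exact Complex.continuous_im.comp_continuousOn (continuousOn_const.mul hHc)
  have hgc : ContinuousOn g (Icc A (A + W)) := hHc.norm.mul hBc.continuousOn
  have hB0 : ∀ t, 0 ≤ B t := fun t => by positivity
  have h1 : a * W ≤ ∫ t in A..(A + W), max (-(f t)) 0 := by
    have h0 : c₂ / Real.sqrt π * (A + W - A - 2 * T ^ θ₂) ≤
        ∫ t in A..(A + W), max (-(f t)) 0 := by
      apply fub_w (Δ := T ^ θ) hX0.le (by linarith) (Real.rpow_pos_of_pos hT0 _) hc₂ hfc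
      intro t₀ ht₀
      exact hN ψ (by rw [hψ, add_sub_cancel_left, abs_of_pos hc]; exact hcc) t₀
        ⟨by linarith [ht₀.1], by linarith [ht₀.2]⟩
    refine le_trans ?_ h0
    have h2 : W / 2 ≤ A + W - A - 2 * T ^ θ₂ := by linarith
    calc a * W = c₂ / Real.sqrt π * (W / 2) := by rw [ha]; ring
      _ ≤ c₂ / Real.sqrt π * (A + W - A - 2 * T ^ θ₂) := by gcongr
  have hEm : MeasurableSet E := by
    have h2 : E = Icc A (A + W) ∩ {t | π - 2 * c ≤ Th α b t} := by
      ext t
      simp [hEdef]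
    rw [h2]
    apply measurableSet_Icc.inter
    exact (isClosed_le continuous_const (continuous_Th hRH hb)).measurableSet
  have hle : A ≤ A + W := by linarith
  set M : ℝ := C / a with hMdef
  have hM0 : 0 < M := by positivity
  -- the pointwise bound
  have h3 : ∀ t ∈ Icc A (A + W), max (-(f t)) 0 ≤
      (1 / (2 * M)) * (g t) ^ 2 + E.indicator (fun _ => M / 2) t := by
    intro t ht
    have hg0 : 0 ≤ (1 / (2 * M)) * (g t) ^ 2 := by positivity
    by_cases hE : t ∈ E
    · rw [indicator_of_mem hE]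
      have h4 : -(f t) ≤ g t := by
        have h5 : |(Complex.exp (I * ψ) * H t).im| ≤ ‖H t‖ := by
          refine (Complex.abs_im_le_norm _).trans ?_
          rw [norm_mul, mul_comm I, Complex.norm_exp_ofReal_mul_I, one_mul]
        have h6 := neg_abs_le (Complex.exp (I * ψ) * H t).im
        simp only [hf, hg]
        nlinarith [hB0 t]
      have h7 : g t ≤ (1 / (2 * M)) * (g t) ^ 2 + M / 2 := by
        have h8 : 0 ≤ (g t - M) ^ 2 / (2 * M) := by positivity
        have h9 : (g t - M) ^ 2 / (2 * M) = (1 / (2 * M)) * (g t) ^ 2 + M / 2 - g t := by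
          field_simp
          ring
        linarith
      have h8 : 0 ≤ (1 / (2 * M)) * (g t) ^ 2 + M / 2 := by positivity
      exact max_le (h4.trans h7) h8
    · rw [indicator_of_notMem hE, add_zero]
      have h4 : 0 ≤ (Complex.exp (I * ψ) * H t).im := by
        by_contra hneg
        push Not at hneg
        exact hE ⟨ht, hA t (hsubI ht) hneg⟩
      have h5 : 0 ≤ f t := mul_nonneg h4 (hB0 t)
      exact max_le (by linarith) hg0
  have hi1 : IntervalIntegrable (fun t => (1 / (2 * M)) * (g t) ^ 2) volume A (A + W) := by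
    apply ContinuousOn.intervalIntegrable
    rw [uIcc_of_le hle]
    exact continuousOn_const.mul (hgc.pow 2)
  have hi2 : IntervalIntegrable (E.indicator fun _ => M / 2) volume A (A + W) := by
    rw [intervalIntegrable_iff_integrableOn_Ioc_of_le hle]
    apply Integrable.indicator _ hEm
    exact integrable_const _
  have hi3 : IntervalIntegrable (fun t => max (-(f t)) 0) volume A (A + W) := by
    apply ContinuousOn.intervalIntegrable
    rw [uIcc_of_le hle]
    exact hfc.neg.sup continuousOn_const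
  have h4 : ∫ t in A..(A + W), max (-(f t)) 0 ≤
      (∫ t in A..(A + W), (1 / (2 * M)) * (g t) ^ 2) +
        ∫ t in A..(A + W), E.indicator (fun _ => M / 2) t := by
    rw [← intervalIntegral.integral_add hi1 hi2]
    exact intervalIntegral.integral_mono_on hle hi3 (hi1.add hi2) h3
  have h5 : ∫ t in A..(A + W), (1 / (2 * M)) * (g t) ^ 2 ≤ (1 / (2 * M)) * (C * W) := by
    rw [intervalIntegral.integral_const_mul]
    apply mul_le_mul_of_nonneg_left hM (by positivity)
  have hfin : volume (Icc A (A + W)) ≠ ⊤ := by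
    rw [Real.volume_Icc]
    exact ENNReal.ofReal_ne_top
  have h6 : ∫ t in A..(A + W), E.indicator (fun _ => M / 2) t ≤ M / 2 * volume.real E := by
    rw [intervalIntegral.integral_of_le hle, integral_indicator hEm, setIntegral_const,
      smul_eq_mul, mul_comm, measureReal_restrict_apply hEm]
    apply mul_le_mul_of_nonneg_left _ (by positivity)
    exact measureReal_mono inter_subset_left (measure_ne_top_of_subset (fun x hx => hx.1) hfin)
  have h7 : (1 / (2 * M)) * (C * W) = a * W / 2 := by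
    rw [hMdef]
    field_simp
  have h8 : a * W / 2 ≤ M / 2 * volume.real E := by linarith
  have h9 : a ^ 2 / C * W = 2 / M * (a * W / 2) := by
    rw [hMdef]
    field_simp
  rw [h9]
  calc 2 / M * (a * W / 2) ≤ 2 / M * (M / 2 * volume.real E) :=
        mul_le_mul_of_nonneg_left h8 (by positivity)
    _ = volume.real E := by field_simp

end Pool.Agent.MP_67227b_nt.Pp
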