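import Pool.Agent.MP_67227b_nt.Pp.PpNeg
import Pool.Agent.MP_67227b_nt.Sg.SgM_b

set_option autoImplicit false

open Filter Topology Set MeasureTheory Complex
open scoped Real ArithmeticFunction ContDiff

namespace Pool.Agent.MP_67227b_nt.Pp

open Pool.Agent.Lib.ZetaCount_helper33 Pool.Agent.MP_67227b_nt Pool.Agent.MP_67227b_nt.Mo
open Pool.Agent.MP_67227b_nt.Sg
open Pool.Agent.MP_67227b_nt.Mo.MomentBAux (DP)

/-- MODULE W7a. `trig_neg` (Pp/PpTrig) for a given `κ`. At `β = 0`: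
`∫_0^κ sin (πu (1 + 2x)) dx = sin (πu(1+κ)) sin (πuκ)/(πu) < 0`; continuity in `β`. -/
theorem trig_neg_w {u κ : ℝ} (hu : 1 / 2 < u) (hu1 : u < 1) (hκ : 0 < κ) (hκ1 : κ < 1)
    (h : 1 < u * (1 + κ)) : ∃ β : ℝ, 0 < β ∧
    (Complex.exp (I * ((π * u : ℝ) : ℂ)) * ∫ x in (0 : ℝ)..κ,
      Complex.exp ((((-2 * β : ℝ) : ℂ) + ((2 * π * u : ℝ) : ℂ) * I) * x)).im < 0 := by
  have hπ := Real.pi_pos
  let F : ℝ → ℝ := fun ε => (Complex.exp (I * ((π * u : ℝ) : ℂ)) * ∫ x in (0 : ℝ)..κ,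
      Complex.exp ((((-2 * ε : ℝ) : ℂ) + ((2 * π * u : ℝ) : ℂ) * I) * x)).im
  have hF : Continuous F := by
    apply Complex.continuous_im.comp
    apply Continuous.mul continuous_const
    apply intervalIntegral.continuous_parametric_intervalIntegral_of_continuous'
    unfold Function.uncurry
    fun_prop
  have hF0 : F 0 < 0 := by
    have hi : IntervalIntegrable (fun x : ℝ => Complex.exp (I * ((π * u : ℝ) : ℂ)) *
        Complex.exp ((((-2 * (0 : ℝ) : ℝ) : ℂ) + ((2 * π * u : ℝ) : ℂ) * I) * x)) volume 0 κ := by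
      apply Continuous.intervalIntegrable
      fun_prop
    have h1 : F 0 = ∫ x in (0 : ℝ)..κ, Real.sin (π * u + 2 * π * u * x) := by
      simp only [F]
      rw [← intervalIntegral.integral_const_mul]
      have h2 := Complex.imCLM.intervalIntegral_comp_comm hi
      simp only [Complex.imCLM_apply] at h2
      rw [← h2]
      apply intervalIntegral.integral_congr
      intro x _
      simp only
      rw [← Complex.exp_add]
      have h3 : I * ((π * u : ℝ) : ℂ) + (((-2 * (0 : ℝ) : ℝ) : ℂ) +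
          ((2 * π * u : ℝ) : ℂ) * I) * x = ((π * u + 2 * π * u * x : ℝ) : ℂ) * I := by
        push_cast
        ring
      rw [h3, Complex.exp_ofReal_mul_I_im]
    rw [h1, M21.int_sin u κ (by linarith)]
    have hu0 : 0 < u := by linarith
    apply div_neg_of_neg_of_pos _ (by positivity)
    apply mul_neg_of_neg_of_pos
    · have h4 : 0 < Real.sin (π * u * (1 + κ) - π) := by
        apply Real.sin_pos_of_pos_of_lt_pi
        · nlinarith
        · have : u * (1 + κ) < 2 := by nlinarith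
          nlinarith
      rw [Real.sin_sub_pi] at h4
      linarith
    · apply Real.sin_pos_of_pos_of_lt_pi
      · positivity
      · have : u * κ < 1 := by nlinarith
        nlinarith
  have h1 : ∀ᶠ ε in 𝓝 (0 : ℝ), F ε < 0 := hF.continuousAt.eventually (Iio_mem_nhds hF0)
  have h2 : ∀ᶠ ε in 𝓝[>] (0 : ℝ), F ε < 0 := h1.filter_mono nhdsWithin_le_nhds
  have h3 : ∀ᶠ ε in 𝓝[>] (0 : ℝ), ε ∈ Ioo (0 : ℝ) 1 := Ioo_mem_nhdsGT one_pos
  obtain ⟨ε, h4, h5⟩ := (h2.and h3).exists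
  exact ⟨ε, h5.1, h4⟩

/-- MODULE W7b. `main_neg` (Pp/PpNeg) for a given `κ`: same proof with `trig_neg_w`. -/
theorem main_neg_w {u κ : ℝ} (hu : 1 / 2 < u) (hu1 : u < 1) (hκ : 0 < κ) (hκ1 : κ < 1)
    (h : 1 < u * (1 + κ)) :
    ∃ (β c₁ η c₂ : ℝ) (i0 i1 K : ℕ), 0 < β ∧ 0 < c₁ ∧ 0 < η ∧ 0 < c₂ ∧
      1 ≤ i0 ∧ κ ≤ i1 * η ∧ ∀ᶠ T : ℝ in atTop, ∀ ψ : ℝ, |ψ - π * u| ≤ c₁ →
        (Complex.exp (I * ψ) * Sa (ap T η κ i0 i1 K) (2 * π * u / Real.log T)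
          (β / Real.log T) ⌊T ^ κ⌋₊).im ≤ -c₂ := by
  obtain ⟨β, hβ, hJ⟩ := trig_neg_w hu hu1 hκ hκ1 h
  set z : ℂ := ((-2 * β : ℝ) : ℂ) + ((2 * π * u : ℝ) : ℂ) * I with hz
  set J : ℂ := ∫ x in (0 : ℝ)..κ, Complex.exp (z * x) with hJdef
  set w : ℝ := (Complex.exp (I * ((π * u : ℝ) : ℂ)) * J).im with hw
  set m : ℝ := -(2 / κ ^ 2 * w) with hm
  have hm0 : 0 < m := by
    have : 0 < 2 / κ ^ 2 := by positivity
    rw [hm]
    nlinarith
  obtain ⟨C, hC, hA⟩ := analysis hκ hκ1.le z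
  set δ : ℝ := min (κ / 8) (m / (4 * C)) with hδdef
  have hδ : 0 < δ := lt_min (by positivity) (by positivity)
  have hδκ : δ ≤ κ / 8 := min_le_left _ _
  have hδm : C * δ ≤ m / 4 := by
    have h1 : δ ≤ m / (4 * C) := min_le_right _ _
    calc C * δ ≤ C * (m / (4 * C)) := by gcongr
      _ = m / 4 := by field_simp
  have hε : 0 < m * κ / 8 := by positivity
  obtain ⟨η, i0, i1, K, hη, hi0, hi1, hK, hclose⟩ :=
    Sa_close (u := u) hβ hκ hκ1 hδ hδκ hε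
  refine ⟨β, m * κ / 32, η, m * κ / 2, i0, i1, K, hβ, by positivity, hη,
    by positivity, hi0, hi1, ?_⟩
  filter_upwards [hclose, FF_ineq hδ (by linarith), eventually_gt_atTop 1] with T h1 h2 hT ψ hψ
  obtain ⟨hI, hFκ, hmain⟩ := hA δ hδ hδκ (FF T δ) (FF_mono hT) (fun y hy => one_le_FF hT hy)
    (FF_right hT) (fun y h0 h3 => h2 y h0 (h3.trans hκ1.le))
  set I₀ : ℝ := ∫ x in (0 : ℝ)..κ, FF T δ x with hI₀
  set S₀ : ℂ := Complex.exp (z * κ) * (FF T δ κ : ℂ) -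
    z * ∫ x in (0 : ℝ)..κ, Complex.exp (z * x) * (FF T δ x : ℂ) with hS₀
  set S : ℂ := Sa (ap T η κ i0 i1 K) (2 * π * u / Real.log T) (β / Real.log T) ⌊T ^ κ⌋₊ with hS
  have hI0 : 0 < I₀ := hκ.trans_le hI
  have hS₀n : ‖S₀‖ ≤ 4 / κ * I₀ := (norm_S0_le hT hκ.le hβ.le).trans hFκ
  have e1 : ‖Complex.exp (I * ψ)‖ = 1 := Complex.norm_exp_I_mul_ofReal ψ
  have e2 : ‖Complex.exp (I * ((π * u : ℝ) : ℂ))‖ = 1 := Complex.norm_exp_I_mul_ofReal _
  have e3 : ‖Complex.exp (I * ψ) - Complex.exp (I * ((π * u : ℝ) : ℂ))‖ ≤ m * κ / 32 := by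
    have h3 : Complex.exp (I * ψ) - Complex.exp (I * ((π * u : ℝ) : ℂ)) =
        Complex.exp (I * ((π * u : ℝ) : ℂ)) *
          (Complex.exp (I * ((ψ - π * u : ℝ) : ℂ)) - 1) := by
      rw [mul_sub, ← Complex.exp_add, mul_one]
      congr 2
      push_cast
      ring
    rw [h3, norm_mul, e2, one_mul]
    exact Real.norm_exp_I_mul_ofReal_sub_one_le.trans hψ
  have d1 : (Complex.exp (I * ψ) * (S - S₀)).im ≤ m * κ / 8 := by
    refine (Complex.im_le_norm _).trans ?_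
    rw [norm_mul, e1, one_mul]
    exact h1
  have d2 : ((Complex.exp (I * ψ) - Complex.exp (I * ((π * u : ℝ) : ℂ))) * S₀).im ≤
      m / 8 * I₀ := by
    refine (Complex.im_le_norm _).trans ?_
    rw [norm_mul]
    calc ‖Complex.exp (I * ψ) - Complex.exp (I * ((π * u : ℝ) : ℂ))‖ * ‖S₀‖
        ≤ m * κ / 32 * (4 / κ * I₀) := mul_le_mul e3 hS₀n (norm_nonneg _) (by positivity)
      _ = m / 8 * I₀ := by
          field_simp
          ring
  have d3 : (Complex.exp (I * ((π * u : ℝ) : ℂ)) *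
      (S₀ - ((2 / κ ^ 2 * I₀ : ℝ) : ℂ) * J)).im ≤ m / 4 * I₀ := by
    refine (Complex.im_le_norm _).trans ?_
    rw [norm_mul, e2, one_mul]
    refine hmain.trans ?_
    exact mul_le_mul_of_nonneg_right hδm hI0.le
  have d4 : (Complex.exp (I * ((π * u : ℝ) : ℂ)) * (((2 / κ ^ 2 * I₀ : ℝ) : ℂ) * J)).im =
      -(m * I₀) := by
    have h3 : Complex.exp (I * ((π * u : ℝ) : ℂ)) * (((2 / κ ^ 2 * I₀ : ℝ) : ℂ) * J) =
        ((2 / κ ^ 2 * I₀ : ℝ) : ℂ) * (Complex.exp (I * ((π * u : ℝ) : ℂ)) * J) := by ring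
    rw [h3, Complex.im_ofReal_mul, hm]
    ring
  have d5 : Complex.exp (I * ψ) * S = Complex.exp (I * ψ) * (S - S₀) +
      (Complex.exp (I * ψ) - Complex.exp (I * ((π * u : ℝ) : ℂ))) * S₀ +
      Complex.exp (I * ((π * u : ℝ) : ℂ)) * (S₀ - ((2 / κ ^ 2 * I₀ : ℝ) : ℂ) * J) +
      Complex.exp (I * ((π * u : ℝ) : ℂ)) * (((2 / κ ^ 2 * I₀ : ℝ) : ℂ) * J) := by ring
  rw [d5, Complex.add_im, Complex.add_im, Complex.add_im, d4]
  have d6 : m * κ ≤ m * I₀ := mul_le_mul_of_nonneg_left hI hm0.le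
  linarith

end Pool.Agent.MP_67227b_nt.Pp
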