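import Pool.Agent.MP_67227b_nt.Ppw.PpwNeg
import Pool.Agent.MP_67227b_nt.Pp.PpT0

set_option autoImplicit false

open Filter Topology Set MeasureTheory Complex
open scoped Real ArithmeticFunction ContDiff

namespace Pool.Agent.MP_67227b_nt.Pp

open Pool.Agent.Lib.ZetaCount_helper33 Pool.Agent.MP_67227b_nt Pool.Agent.MP_67227b_nt.Mo
open Pool.Agent.MP_67227b_nt.Sg
open Pool.Agent.MP_67227b_nt.Mo.MomentBAux (DP)

/-- Decay: a power times an exponential of a negative power tends to zero. -/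
private lemma T0_decay (a k : ℝ) {δ : ℝ} (hδ : 0 < δ) (hk : 0 < k) :
    Tendsto (fun T : ℝ => T ^ a * Real.exp (-(k * T ^ δ))) atTop (𝓝 0) := by
  have h1 : Tendsto (fun x : ℝ => x ^ (a / δ) * Real.exp (-k * x)) atTop (𝓝 0) :=
    tendsto_rpow_mul_exp_neg_mul_atTop_nhds_zero _ _ hk
  have h2 := h1.comp (tendsto_rpow_atTop hδ)
  refine h2.congr' ?_
  filter_upwards [eventually_gt_atTop 0] with T hT
  simp only [Function.comp]
  rw [← Real.rpow_mul hT.le, mul_div_cancel₀ _ hδ.ne', neg_mul]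

/-- MODULE W8. `neg_at` (Pp/PpT0) with short Gaussian windows: `κ` with `κ < θ₀`, `u (1 + κ) > 1`;
`κ < θ < θ₂ < θ₀`; `Δ = T^θ`, `X = T^θ₂`. -/
theorem neg_at_w (hRH : RiemannHypothesis) {u θ₀ : ℝ} (hu : 1 / 2 < u) (hu1 : u < 1)
    (hθ₀1 : θ₀ ≤ 1) (hθ₀ : 1 / u - 1 < θ₀) :
    ∃ (β κ c₁ η c₂ θ θ₂ : ℝ) (i0 i1 K : ℕ), 0 < β ∧ 0 < κ ∧ κ < 1 ∧ 0 < c₁ ∧ 0 < η ∧ 0 < c₂ ∧
      0 < θ ∧ θ < θ₂ ∧ θ₂ < θ₀ ∧ 1 ≤ i0 ∧ ∀ᶠ T : ℝ in atTop, ∀ ψ : ℝ, |ψ - π * u| ≤ c₁ →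
        ∀ t₀ ∈ Icc (5 * T / 8) (2 * T), ∫ t in (t₀ - T ^ θ₂)..(t₀ + T ^ θ₂),
          (Complex.exp (I * ψ) *
            Hq (2 * π * u / Real.log T) (pl (1 / 2 + β / Real.log T) t)).im *
          ‖Ap T η κ i0 i1 K (pl (1 / 2 + β / Real.log T) (t + 2 * π * u / Real.log T))‖ ^ 2 *
          Real.exp (-(((t - t₀) / T ^ θ) ^ 2)) ≤ -c₂ * T ^ θ := by
  have hu0 : 0 < u := by linarith
  have hu2 : 0 < 1 / u - 1 := by
    rw [sub_pos, lt_div_iff₀ hu0]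
    linarith
  obtain ⟨κ, hκa, hκb⟩ := exists_between hθ₀
  have hκ : 0 < κ := hu2.trans hκa
  have hκ1 : κ < 1 := hκb.trans_le hθ₀1
  have huκ : 1 < u * (1 + κ) := by
    have h1 : 1 / u < 1 + κ := by linarith
    rw [div_lt_iff₀ hu0] at h1
    linarith
  obtain ⟨β, c₁, η, c₂, i0, i1, K, hβ, hc₁, hη, hc₂, hi0, hi1, hneg⟩ :=
    main_neg_w hu hu1 hκ hκ1 huκ
  obtain ⟨θ, hκθ, hθb⟩ := exists_between hκb
  obtain ⟨θ₂, hθθ₂, hθ₂b⟩ := exists_between hθb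
  have hθ0 : 0 < θ := hκ.trans hκθ
  have hθ₂1 : θ₂ < 1 := hθ₂b.trans_le hθ₀1
  obtain ⟨C₂, hC₂, hgr⟩ := Hq_growth hRH hu0 hβ
  obtain ⟨C₃, hC₃, hright⟩ := right_line_a
  set A : ℝ := Real.exp K with hA
  have hA0 : 0 < A := Real.exp_pos _
  refine ⟨β, κ, c₁, η, c₂ / 2, θ, θ₂, i0, i1, K, hβ, hκ, hκ1, hc₁, hη, by positivity, hθ0, hθθ₂,
    hθ₂b, hi0, ?_⟩
  have e1 : Tendsto (fun T : ℝ => C₃ * A ^ 2 *
      (T ^ (12 * κ) * Real.exp (-(1 / 32 * T ^ (2 * (θ - κ)))) +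
      T ^ (12 * κ) * Real.exp (-(1 / 2 * T ^ (2 * (θ₂ - θ))))) +
      100 * A ^ 2 * (T ^ (C₂ + 12 * κ) * Real.exp (-(1 * T ^ (2 * (θ₂ - θ)))))) atTop
      (𝓝 0) := by
    have t1 := T0_decay (12 * κ) (1 / 32) (δ := 2 * (θ - κ)) (by linarith) (by norm_num)
    have t2 := T0_decay (12 * κ) (1 / 2) (δ := 2 * (θ₂ - θ)) (by linarith) (by norm_num)
    have t3 := T0_decay (C₂ + 12 * κ) 1 (δ := 2 * (θ₂ - θ)) (by linarith) one_pos
    have := ((t1.add t2).const_mul (C₃ * A ^ 2)).add (t3.const_mul (100 * A ^ 2))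
    simpa using this
  have ev1 := e1.eventually (gt_mem_nhds (by positivity : (0 : ℝ) < c₂ / 2))
  have ev2 : ∀ᶠ T : ℝ in atTop, (32 : ℝ) ≤ T ^ (θ - κ) :=
    (tendsto_rpow_atTop (by linarith : 0 < θ - κ)).eventually_ge_atTop 32
  have ev3 : ∀ᶠ T : ℝ in atTop, 2 * π * u + β + 1 ≤ Real.log T :=
    Real.tendsto_log_atTop.eventually_ge_atTop _
  have ev4 : ∀ᶠ T : ℝ in atTop, (8 : ℝ) ≤ T ^ (1 - θ₂) :=
    (tendsto_rpow_atTop (by linarith : 0 < 1 - θ₂)).eventually_ge_atTop 8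
  filter_upwards [hneg, hgr, ev1, ev2, ev3, ev4, eventually_ge_atTop 4] with T hneg' hgr' hE h32
    hL h8T hT4 ψ hψ t₀ ht₀
  have hT0 : 0 < T := by linarith
  have hT1 : 1 ≤ T := by linarith
  have hπ := Real.pi_pos
  have hL0 : 0 < Real.log T := by
    have : 0 < 2 * π * u + β + 1 := by positivity
    linarith
  have hneg'' := hneg' ψ hψ
  set L := Real.log T with hLdef
  set α : ℝ := 2 * π * u / L with hα
  set b : ℝ := β / L with hb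
  set X : ℝ := T ^ θ₂ with hX
  set Δ : ℝ := T ^ θ with hΔ
  set N : ℕ := ⌊T ^ κ⌋₊ with hN
  set a : ℕ → ℝ := ap T η κ i0 i1 K with ha
  have hα0 : 0 ≤ α := by positivity
  have hα1 : α ≤ 1 := by
    rw [hα, div_le_one hL0]
    linarith
  have hb0 : 0 < b := by positivity
  have hb1 : b ≤ 1 := by
    rw [hb, div_le_one hL0]
    have : 0 < 2 * π * u := by positivity
    linarith
  have hTκ : 1 ≤ T ^ κ := Real.one_le_rpow hT1 hκ.le
  have hN1 : 1 ≤ N := by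
    rw [hN, Nat.one_le_floor_iff]
    exact hTκ
  have hNle : (N : ℝ) ≤ T ^ κ := Nat.floor_le (by positivity)
  have hN1' : (1 : ℝ) ≤ N := by exact_mod_cast hN1
  have hΔ0 : 0 < Δ := by positivity
  have hΔN : 32 * (N : ℝ) ≤ Δ := by
    have : Δ = T ^ (θ - κ) * T ^ κ := by
      rw [hΔ, ← Real.rpow_add hT0]
      congr 1
      ring
    rw [this]
    gcongr
  have hΔ4 : 4 ≤ Δ := by linarith
  have hX0 : 0 < X := by positivity
  have hX8 : X ≤ T / 8 := by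
    have h9 : T = T ^ (1 - θ₂) * T ^ θ₂ := by
      rw [← Real.rpow_add hT0, sub_add_cancel, Real.rpow_one]
    have h10 : 8 * X ≤ T := by
      calc 8 * X ≤ T ^ (1 - θ₂) * T ^ θ₂ := by
            rw [hX]
            gcongr
        _ = T := h9.symm
    linarith
  have hXt : X < t₀ := by linarith [ht₀.1]
  have hab : ∀ n, |a n| ≤ A := fun n => ap_bound hη i0 i1 K n
  have hAp : ∀ s : ℂ, Ap T η κ i0 i1 K s = Aa a N s := fun s =>
    Ap_eq (by linarith) hη hκ.le i0 i1 K s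
  -- rewrite the integral
  have hint : ∫ t in (t₀ - X)..(t₀ + X), (Complex.exp (I * ψ) * Hq α (pl (1 / 2 + b) t)).im *
      ‖Ap T η κ i0 i1 K (pl (1 / 2 + b) (t + 2 * π * u / L))‖ ^ 2 *
      Real.exp (-(((t - t₀) / Δ) ^ 2)) =
      (Complex.exp (I * ψ) *
        ∫ t in (t₀ - X)..(t₀ + X), Pa a α b t₀ Δ N (pl (1 / 2 + b) t)).im := by
    rw [im_left hRH _ hα0 hb0 hX0 hXt]
    apply intervalIntegral.integral_congr
    intro t _
    simp only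
    rw [hAp]
  rw [hint]
  have hr := hright a A α b t₀ Δ X N hab hN1 hα0 hb0 hb1 hΔN hX0
  have hm := move_line_a hRH (a := a) (A := A) (α := α) (b := b) (t₀ := t₀) (Δ := Δ) (X := X)
    (K := T ^ C₂) (N := N) hab hα0 hα1 hb0 hb1 hΔ4 hX0 hXt hN1 (by
      intro σ t hσ1 hσ2 ht
      apply hgr' σ t hσ1 hσ2
      · rcases ht with rfl | rfl <;> linarith [ht₀.1, ht₀.2]
      · rcases ht with rfl | rfl <;> linarith [ht₀.1, ht₀.2])
  set IL := ∫ t in (t₀ - X)..(t₀ + X), Pa a α b t₀ Δ N (pl (1 / 2 + b) t) with hIL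
  set IR := ∫ t in (t₀ - X)..(t₀ + X), Pa a α b t₀ Δ N (pl 4 t) with hIR
  set M : ℂ := ((Δ * Real.sqrt π : ℝ) : ℂ) * Sa a α b N with hM
  have hnorm : ‖Complex.exp (I * ψ)‖ = 1 := Complex.norm_exp_I_mul_ofReal ψ
  have hdiff : (Complex.exp (I * ψ) * IL).im - (Complex.exp (I * ψ) * M).im ≤
      ‖IL - IR‖ + ‖IR - M‖ := by
    have h5 : (Complex.exp (I * ψ) * IL).im - (Complex.exp (I * ψ) * M).im =
        (Complex.exp (I * ψ) * (IL - M)).im := by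
      rw [mul_sub, Complex.sub_im]
    rw [h5]
    calc (Complex.exp (I * ψ) * (IL - M)).im ≤ ‖Complex.exp (I * ψ) * (IL - M)‖ :=
          (le_abs_self _).trans (Complex.abs_im_le_norm _)
      _ = ‖IL - M‖ := by rw [norm_mul, hnorm, one_mul]
      _ = ‖(IL - IR) + (IR - M)‖ := by congr 1; ring
      _ ≤ _ := norm_add_le _ _
  have hsq : 1 ≤ Real.sqrt π := by
    rw [Real.one_le_sqrt]
    linarith [Real.pi_gt_three]
  have hMim : (Complex.exp (I * ψ) * M).im ≤ -(Δ * c₂) := by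
    have h6 : Complex.exp (I * ψ) * M =
        ((Δ * Real.sqrt π : ℝ) : ℂ) * (Complex.exp (I * ψ) * Sa a α b N) := by
      rw [hM]
      ring
    rw [h6, Complex.im_ofReal_mul]
    have h7 : 0 ≤ Δ * Real.sqrt π := by positivity
    have h8 : Δ * Real.sqrt π * (Complex.exp (I * ψ) * Sa a α b N).im ≤
        Δ * Real.sqrt π * (-c₂) := mul_le_mul_of_nonneg_left hneg'' h7
    have h9 : Δ * c₂ ≤ Δ * Real.sqrt π * c₂ := by
      have : Δ * c₂ * 1 ≤ Δ * c₂ * Real.sqrt π := by gcongr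
      linarith
    linarith
  have hN12 : (N : ℝ) ^ 12 ≤ T ^ (12 * κ) := by
    calc (N : ℝ) ^ 12 ≤ (T ^ κ) ^ 12 := by gcongr
      _ = T ^ (12 * κ) := by
        rw [← Real.rpow_natCast, ← Real.rpow_mul hT0.le]
        congr 1
        push_cast
        ring
  have hx1 : Real.exp (-(Δ ^ 2 / (32 * (N : ℝ) ^ 2))) ≤
      Real.exp (-(1 / 32 * T ^ (2 * (θ - κ)))) := by
    apply Real.exp_le_exp.mpr
    apply neg_le_neg
    have h8 : T ^ (2 * (θ - κ)) = Δ ^ 2 / (T ^ κ) ^ 2 := by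
      rw [hΔ, ← Real.rpow_natCast, ← Real.rpow_natCast, ← Real.rpow_mul hT0.le,
        ← Real.rpow_mul hT0.le, ← Real.rpow_sub hT0]
      congr 1
      push_cast
      ring
    rw [h8]
    rw [div_mul_div_comm, one_mul]
    gcongr
  have hx3 : X ^ 2 / Δ ^ 2 = 1 * T ^ (2 * (θ₂ - θ)) := by
    rw [one_mul, hΔ, hX, ← Real.rpow_natCast, ← Real.rpow_natCast, ← Real.rpow_mul hT0.le,
      ← Real.rpow_mul hT0.le, ← Real.rpow_sub hT0]
    congr 1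
    push_cast
    ring
  have hx2 : X ^ 2 / (2 * Δ ^ 2) = 1 / 2 * T ^ (2 * (θ₂ - θ)) := by
    have : X ^ 2 / (2 * Δ ^ 2) = 1 / 2 * (X ^ 2 / Δ ^ 2) := by field_simp
    rw [this, hx3, one_mul]
  rw [hx2] at hr
  rw [hx3] at hm
  have hr' : ‖IR - M‖ ≤ Δ * (C₃ * A ^ 2 * (T ^ (12 * κ) *
      Real.exp (-(1 / 32 * T ^ (2 * (θ - κ)))) +
      T ^ (12 * κ) * Real.exp (-(1 / 2 * T ^ (2 * (θ₂ - θ)))))) := by
    refine hr.trans ?_
    calc C₃ * A ^ 2 * (N : ℝ) ^ 12 * Δ * (Real.exp (-(Δ ^ 2 / (32 * (N : ℝ) ^ 2))) +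
          Real.exp (-(1 / 2 * T ^ (2 * (θ₂ - θ)))))
        ≤ C₃ * A ^ 2 * T ^ (12 * κ) * Δ * (Real.exp (-(1 / 32 * T ^ (2 * (θ - κ)))) +
          Real.exp (-(1 / 2 * T ^ (2 * (θ₂ - θ))))) := by gcongr
      _ = _ := by ring
  have hm' : ‖IL - IR‖ ≤ Δ * (100 * A ^ 2 * (T ^ (C₂ + 12 * κ) *
      Real.exp (-(1 * T ^ (2 * (θ₂ - θ)))))) := by
    refine hm.trans ?_
    rw [Real.rpow_add hT0]
    calc 100 * A ^ 2 * T ^ C₂ * (N : ℝ) ^ 12 * Real.exp (-(1 * T ^ (2 * (θ₂ - θ))))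
        ≤ 100 * A ^ 2 * T ^ C₂ * T ^ (12 * κ) * Real.exp (-(1 * T ^ (2 * (θ₂ - θ)))) := by
          gcongr
      _ = 1 * (100 * A ^ 2 * (T ^ C₂ * T ^ (12 * κ) *
          Real.exp (-(1 * T ^ (2 * (θ₂ - θ)))))) := by ring
      _ ≤ _ := by
        gcongr
        linarith
  have hfin : ‖IL - IR‖ + ‖IR - M‖ ≤ Δ * (c₂ / 2) := by
    calc ‖IL - IR‖ + ‖IR - M‖ ≤ _ := add_le_add hm' hr'
      _ = Δ * (C₃ * A ^ 2 * (T ^ (12 * κ) * Real.exp (-(1 / 32 * T ^ (2 * (θ - κ)))) +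
        T ^ (12 * κ) * Real.exp (-(1 / 2 * T ^ (2 * (θ₂ - θ))))) +
        100 * A ^ 2 * (T ^ (C₂ + 12 * κ) * Real.exp (-(1 * T ^ (2 * (θ₂ - θ)))))) := by ring
      _ ≤ Δ * (c₂ / 2) := by gcongr
  have : -(c₂ / 2) * T ^ θ = -(Δ * c₂) + Δ * (c₂ / 2) := by
    rw [hΔ]
    ring
  rw [this]
  linarith

end Pool.Agent.MP_67227b_nt.Pp
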